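import Mathlib
import Pool.Agent.MP_36f78e_lc.H24.Cl.Guv

/-!
A twisted form of the additive lossless expander whose coordinates are jointly onto.
-/

set_option linter.unusedSectionVars false

namespace Pool.Agent.MP_36f78e_lc.H75T

open Finset Polynomial Pool.Agent.MP_36f78e_lc.H24.Cl

section

variable {K L : Type} [Field K] [Field L] [Algebra K L] (pb : PowerBasis K L)

/-- The twisted symbol of `z` at the point `a`. -/
noncomputable def tw {m : ℕ} (c : Fin m → L) (a : K) (z : L) : Fin m → K :=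
  fun j => (rep pb (c j * z ^ 2 ^ (j : ℕ))).eval a

variable {ι : Type} [Fintype ι] {α : ι → K} {m : ℕ} {Y : Finset L} {c : Fin m → L}

lemma tw_step (hc : ∀ j, c j ≠ 0) (hα : Function.Injective α) (hY : Y.card ≤ 2 ^ m)
    (p : Fin Y.card → K[X])
    (hp : ∀ e, (p e).natDegree + (pb.dim - 1) * m < Fintype.card ι)
    (hv : ∀ i, ∀ z ∈ Y, ∑ e, (p e).eval (α i) * ∏ j, tw pb c (α i) z j ^ dg hY e j = 0)
    (e : Fin Y.card) : aeval pb.gen (p e) = 0 := by
  have h1 : ∀ z ∈ Y, ∑ e, aeval pb.gen (p e) * (∏ j, c j ^ dg hY e j) * z ^ (e : ℕ) = 0 := by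
    intro z hz
    have h2 : ∑ e, p e * ∏ j : Fin m, rep pb (c j * z ^ 2 ^ (j : ℕ)) ^ dg hY e j = 0 := by
      refine eq_zero_of_natDegree_lt_card_of_eval_eq_zero _ hα (fun i => ?_) ?_
      · rw [← hv i z hz]
        simp [eval_finsetSum, eval_prod, tw]
      · have h0 := hp e
        refine lt_of_le_of_lt (natDegree_sum_le_of_forall_le _ _ (n := Fintype.card ι - 1)
          fun e' _ => natDegree_mul_le.trans ?_) (by omega)
        have h3 : (∏ j : Fin m, rep pb (c j * z ^ 2 ^ (j : ℕ)) ^ dg hY e' j).natDegree ≤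
            (pb.dim - 1) * m := by
          refine (natDegree_prod_le _ _).trans ((sum_le_card_nsmul _ _ (pb.dim - 1)
            fun j _ => natDegree_pow_le.trans ?_).trans (by simp [mul_comm]))
          calc _ ≤ 1 * (pb.dim - 1) := Nat.mul_le_mul (dg_le _ _ _) (natDegree_rep _ _)
            _ = _ := one_mul _
        have := hp e'
        omega
    have h3 := congrArg (aeval pb.gen) h2
    simp only [map_sum, map_mul, map_prod, map_pow, aeval_rep, map_zero, mul_pow, ← pow_mul,
      prod_mul_distrib, prod_pow_eq_pow_sum, sum_dg, ← mul_assoc] at h3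
    exact h3
  have h2 : ∑ e : Fin Y.card, C (aeval pb.gen (p e) * ∏ j, c j ^ dg hY e j) * X ^ (e : ℕ) =
      (0 : L[X]) :=
    eq_zero_of_degree_lt_of_eval_finset_eq_zero Y (degree_sum_fin_lt _) fun z hz => by
      rw [← h1 z hz]
      simp only [eval_finsetSum, eval_mul, eval_C, eval_pow, eval_X]
  have h3 := congrArg (fun q => coeff q e) h2
  simp only [finsetSum_coeff, coeff_C_mul_X_pow, coeff_zero] at h3
  rw [sum_eq_single e (fun b _ hb => if_neg fun h => hb (Fin.ext h.symm)) (by simp),
    if_pos rfl] at h3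
  exact (mul_eq_zero.1 h3).resolve_right (prod_ne_zero_iff.2 fun j _ => pow_ne_zero _ (hc j))

lemma tw_zero (hc : ∀ j, c j ≠ 0) (hk : 2 ≤ pb.dim) (hα : Function.Injective α)
    (hY : Y.card ≤ 2 ^ m) (N : ℕ) :
    N + (pb.dim - 1) * m ≤ Fintype.card ι → ∀ p : Fin Y.card → K[X], (∀ e, (p e).degree < N) →
    (∀ i, ∀ z ∈ Y, ∑ e, (p e).eval (α i) * ∏ j, tw pb c (α i) z j ^ dg hY e j = 0) →
    ∀ e, p e = 0 := by
  induction N with
  | zero => intro _ p hp _ e; simpa using hp e
  | succ N ih =>
    intro hN p hp hv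
    have hint := pb.isIntegral_gen
    have h1 := tw_step pb hc hα hY p (fun e => by
      have : (p e).natDegree ≤ N := natDegree_le_iff_degree_le.2 (Order.le_of_lt_succ (hp e))
      omega) hv
    choose p' hp' using fun e => minpoly.dvd K pb.gen (h1 e)
    have hE : ∀ a : K, (minpoly K pb.gen).eval a ≠ 0 := fun a h => by
      have h2 := degree_eq_one_of_irreducible_of_root (minpoly.irreducible hint) h
      have h3 := natDegree_eq_of_degree_eq_some (n := 1) h2
      rw [pb.natDegree_minpoly] at h3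
      omega
    have h2 := ih (by omega) p' (fun e => by
      by_cases h0 : p' e = 0
      · rw [h0, degree_zero]; exact WithBot.bot_lt_coe _
      · have h3 : (p e).natDegree ≤ N := natDegree_le_iff_degree_le.2 (Order.le_of_lt_succ (hp e))
        rw [hp' e, natDegree_mul (minpoly.ne_zero hint) h0, pb.natDegree_minpoly] at h3
        rw [degree_eq_natDegree h0]
        exact_mod_cast (by omega : (p' e).natDegree < N)) (fun i z hz => by
      have h3 := hv i z hz
      simp only [hp', eval_mul, mul_assoc, ← mul_sum] at h3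
      exact (mul_eq_zero.1 h3).resolve_left (hE _))
    intro e
    rw [hp' e, h2 e, mul_zero]

theorem tw_expand [DecidableEq K] (hc : ∀ j, c j ≠ 0) (hk : 2 ≤ pb.dim)
    (hα : Function.Injective α) (hY : Y.card ≤ 2 ^ m) :
    Fintype.card ι * Y.card ≤
      ∑ i, (Y.image (tw pb c (α i))).card + (pb.dim - 1) * m * Y.card := by
  classical
  by_contra hcon
  push Not at hcon
  obtain ⟨A, hA⟩ : ∃ A, Fintype.card ι = A + (pb.dim - 1) * m := by
    refine ⟨Fintype.card ι - (pb.dim - 1) * m, (Nat.sub_add_cancel ?_).symm⟩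
    by_contra h
    have := Nat.mul_le_mul_right Y.card (not_le.1 h).le
    omega
  rw [hA, add_mul] at hcon
  set T : Finset (Σ _ : ι, Fin m → K) := univ.sigma fun i => Y.image (tw pb c (α i)) with hT
  let Φ : (Fin Y.card × Fin A → K) →ₗ[K] (T → K) := LinearMap.pi fun t =>
    ∑ x : Fin Y.card × Fin A,
      (α t.1.1 ^ (x.2 : ℕ) * ∏ j, t.1.2 j ^ dg hY x.1 j) • LinearMap.proj x
  have hker : LinearMap.ker Φ ≠ ⊥ := LinearMap.ker_ne_bot_of_finrank_lt (by
    simp only [Module.finrank_fintype_fun_eq_card, Fintype.card_coe, Fintype.card_prod,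
      Fintype.card_fin, hT, card_sigma]
    rw [mul_comm]
    omega)
  obtain ⟨c', hc', hc0⟩ := Submodule.exists_mem_ne_zero_of_ne_bot hker
  have h1 := tw_zero pb hc hk hα hY A hA.ge (fun e => ∑ t : Fin A, C (c' (e, t)) * X ^ (t : ℕ))
    (fun e => degree_sum_fin_lt _) (fun i z hz => by
      have h2 := congrFun (LinearMap.mem_ker.1 hc')
        ⟨⟨i, tw pb c (α i) z⟩, mem_sigma.2 ⟨mem_univ _, mem_image_of_mem _ hz⟩⟩
      simp only [Φ, LinearMap.pi_apply, LinearMap.sum_apply, LinearMap.smul_apply,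
        LinearMap.proj_apply, smul_eq_mul, Pi.zero_apply, Fintype.sum_prod_type] at h2
      rw [← h2]
      refine sum_congr rfl fun e _ => ?_
      simp only [eval_finsetSum, eval_mul, eval_C, eval_pow, eval_X, sum_mul]
      exact sum_congr rfl fun t _ => by ring)
  refine hc0 (funext fun x => ?_)
  have h3 := congrArg (fun q => coeff q x.2) (h1 x.1)
  simp only [finsetSum_coeff, coeff_C_mul_X_pow, coeff_zero] at h3
  rw [sum_eq_single x.2 (fun b _ hb => if_neg fun h => hb (Fin.ext h.symm)) (by simp)] at h3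
  simpa using h3

lemma rep_sub (z w : L) : rep pb (z - w) = rep pb z - rep pb w := by
  rw [eq_sub_iff_add_eq, ← rep_add, sub_add_cancel]

lemma exists_rep {t : ℕ} (ht : t ≤ pb.dim) (a : Fin t → K) (ha : Function.Injective a)
    (v : Fin t → K) : ∃ x : L, ∀ i, (rep pb x).eval (a i) = v i := by
  classical
  set f := Lagrange.interpolate univ a v with hf
  have h1 : f.degree < pb.dim := (Lagrange.degree_interpolate_lt v ha.injOn).trans_le (by simpa)
  have h2 : rep pb (aeval pb.gen f) = f := by
    by_contra h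
    have h3 := minpoly.degree_le_of_ne_zero K pb.gen (sub_ne_zero.2 h) (by simp [aeval_rep])
    rw [pb.degree_minpoly] at h3
    exact absurd ((degree_sub_le _ _).trans_lt (max_lt (degree_sum_fin_lt _) h1)) (not_lt.2 h3)
  exact ⟨aeval pb.gen f, fun i => by
    rw [h2, hf, Lagrange.eval_interpolate_at_node v ha.injOn (mem_univ i)]⟩

end

lemma card_line {L : Type} [Fintype L] [DecidableEq L] {m : ℕ} (X : Finset (Fin m → L)) (j : Fin m)
    (h : ∀ c ∈ X, ∀ c' ∈ X, (∀ i, i ≠ j → c i = c' i) → c j = c' j) :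
    X.card * Fintype.card L ≤ Fintype.card (Fin m → L) := by
  rw [← card_univ, ← card_product, ← card_univ]
  refine card_le_card_of_injOn (fun x => Function.update x.1 j x.2) (fun _ _ => mem_univ _) ?_
  rintro ⟨c, x⟩ hc ⟨c', x'⟩ hc' e
  have h1 : ∀ i, i ≠ j → c i = c' i := fun i hi => by simpa [hi] using congrFun e i
  have h2 := h c (mem_product.1 hc).1 c' (mem_product.1 hc').1 h1
  refine Prod.ext (funext fun i => ?_) (by simpa using congrFun e j)
  by_cases hi : i = j
  · rw [hi]; exact h2
  · exact h1 i hi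

theorem exists_twist {K L : Type} [Field K] [Field L] [Algebra K L] [Fintype K] [Fintype L]
    [Algebra (ZMod 2) K] [CharP L 2] (pb : PowerBasis K L) {ι : Type} [Fintype ι] {α : ι → K}
    (hα : Function.Injective α) (m t : ℕ) (ht : t ≤ pb.dim)
    (hcard : m + Fintype.card ι ^ t * (Fintype.card K ^ m) ^ t < Fintype.card L) :
    ∃ c : Fin m → L, (∀ j, c j ≠ 0) ∧ ∀ τ : Fin t → ι, Function.Injective τ →
      ∀ y : Fin t → Fin m → K, ∃ z, ∀ a, tw pb c (α (τ a)) z = y a := by
  classical
  let V := Fin t → Fin m → K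
  have : Finite (Module.Dual (ZMod 2) V) := Module.finite_of_finite (ZMod 2)
  have : Fintype (Module.Dual (ZMod 2) V) := Fintype.ofFinite _
  have hD : Fintype.card (Module.Dual (ZMod 2) V) = (Fintype.card K ^ m) ^ t := by
    rw [Module.card_eq_pow_finrank (K := ZMod 2), Subspace.dual_finrank_eq,
      ← Module.card_eq_pow_finrank]
    simp [V]
  let X : Fin m ⊕ (Fin t → ι) × Module.Dual (ZMod 2) V → Finset (Fin m → L) :=
    Sum.elim (fun j => univ.filter fun c => c j = 0) fun x => univ.filter fun c =>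
      Function.Injective x.1 ∧ x.2 ≠ 0 ∧ ∀ z, x.2 (fun a => tw pb c (α (x.1 a)) z) = 0
  have hX : ∀ x, (X x).card * Fintype.card L ≤ Fintype.card (Fin m → L) := by
    rintro (j | ⟨τ, l⟩)
    · exact card_line _ j fun c hc c' hc' _ => (mem_filter.1 hc).2.trans (mem_filter.1 hc').2.symm
    · rcases (X (Sum.inr (τ, l))).eq_empty_or_nonempty with h | ⟨c0, h⟩
      · simp [h]
      obtain ⟨hτ, hl, -⟩ := (mem_filter.1 h).2
      obtain ⟨v, hv⟩ : ∃ v, l v ≠ 0 := by
        by_contra h
        push Not at h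
        exact hl (LinearMap.ext h)
      have e : v = ∑ j, fun a => Pi.single j (v a j) := by
        funext a
        rw [Finset.sum_apply, univ_sum_single]
      rw [e, map_sum] at hv
      obtain ⟨j, -, hj⟩ := exists_ne_zero_of_sum_ne_zero hv
      obtain ⟨x, hx⟩ := exists_rep pb ht (fun a => α (τ a)) (hα.comp hτ) fun a => v a j
      refine card_line _ j fun c hc c' hc' hcc => ?_
      by_contra hne
      obtain ⟨z, hz⟩ := Finite.injective_iff_surjective.1 (iterateFrobenius L 2 j).injective
        (x / (c j - c' j))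
      have h1 := (mem_filter.1 hc).2.2.2 z
      have h2 := (mem_filter.1 hc').2.2.2 z
      apply hj
      rw [← sub_self (0 : ZMod 2)]
      nth_rewrite 1 [← h1]
      nth_rewrite 1 [← h2]
      rw [← map_sub]
      congr 1
      funext a i
      change _ = tw pb c (α (τ a)) z i - tw pb c' (α (τ a)) z i
      simp only [tw, ← eval_sub, ← rep_sub, ← sub_mul]
      by_cases hi : i = j
      · subst hi
        rw [iterateFrobenius_def] at hz
        rw [Pi.single_eq_same, hz, mul_div_cancel₀ _ (sub_ne_zero.2 hne), hx]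
      · rw [Pi.single_eq_of_ne hi, hcc i hi, sub_self, zero_mul]
        simp [rep]
  have h1 : (univ.biUnion X).card < Fintype.card (Fin m → L) := by
    have h2 : (univ.biUnion X).card * Fintype.card L ≤
        (m + Fintype.card ι ^ t * (Fintype.card K ^ m) ^ t) * Fintype.card (Fin m → L) := by
      refine (Nat.mul_le_mul_right _ card_biUnion_le).trans ?_
      rw [sum_mul]
      refine (sum_le_card_nsmul _ _ _ fun x _ => hX x).trans (le_of_eq ?_)
      simp [hD]
    have h3 := Nat.mul_lt_mul_of_pos_right hcard (Fintype.card_pos (α := Fin m → L))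
    rw [mul_comm (Fintype.card L)] at h3
    exact lt_of_mul_lt_mul_right (h2.trans_lt h3) (Nat.zero_le _)
  obtain ⟨c, -, hc⟩ := exists_mem_notMem_of_card_lt_card (t := univ) h1
  have hc' : ∀ x, c ∉ X x := fun x hx => hc (mem_biUnion.2 ⟨x, mem_univ _, hx⟩)
  refine ⟨c, fun j hj => hc' (Sum.inl j) (mem_filter.2 ⟨mem_univ _, hj⟩), fun τ hτ y => ?_⟩
  let f : L →+ V := AddMonoidHom.mk' (fun z a => tw pb c (α (τ a)) z) fun z w => by
    funext a j
    simp only [tw, add_pow_char_pow, mul_add, rep_add, eval_add, V, Pi.add_apply]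
  by_contra hy
  have h2 : AddSubgroup.toZModSubmodule 2 f.range < ⊤ := lt_top_iff_ne_top.2 fun h => by
    have h3 : y ∈ AddSubgroup.toZModSubmodule 2 f.range := h ▸ Submodule.mem_top
    obtain ⟨z, hz⟩ := h3
    exact hy ⟨z, congrFun hz⟩
  obtain ⟨l, hl, h3⟩ := Submodule.exists_le_ker_of_lt_top _ h2
  exact hc' (Sum.inr (τ, l)) (mem_filter.2 ⟨mem_univ _, hτ, hl, fun z => h3 ⟨z, rfl⟩⟩)

/-- Additive maps on a binary vector space such that any `t` of them are jointly onto and which are
nearly injective, on average, on every set of at most `2 ^ m` points. -/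
theorem exists_code (r k m t : ℕ) (hr : r ≠ 0) (hk : 2 ≤ k) (ι : Type) [Fintype ι]
    (hι : Fintype.card ι ≤ 2 ^ r) (hm : m < 2 ^ r) (htι : t ≤ Fintype.card ι) (ht0 : t ≠ 0)
    (ht : (m + 1) * t < k) :
    ∃ (S : Type) (_ : AddCommGroup S) (_ : Fintype S) (_ : DecidableEq S)
      (π : ι → ((Fin (r * k) → ZMod 2) →+ S)), Fintype.card S = 2 ^ (r * m) ∧
      (∀ T : Finset ι, T.card ≤ t → ∀ y : ι → S, ∃ z, ∀ i ∈ T, π i z = y i) ∧
      ∀ Y : Finset (Fin (r * k) → ZMod 2), Y.card ≤ 2 ^ m →
        Fintype.card ι * Y.card ≤ ∑ i, (Y.image (π i)).card + (k - 1) * m * Y.card := by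
  classical
  have : NeZero k := ⟨by omega⟩
  let K := GaloisField 2 r
  let L := FiniteField.Extension K 2 k
  have : Fintype K := Fintype.ofFinite K
  have : Fintype L := Fintype.ofFinite L
  have hK : Fintype.card K = 2 ^ r := by
    rw [← Nat.card_eq_fintype_card]; exact GaloisField.card 2 r hr
  have hL : Module.finrank (ZMod 2) L = r * k := by
    rw [FiniteField.finrank_zmod_extension, GaloisField.finrank 2 hr]
  have hL' : Fintype.card L = 2 ^ (r * k) := by
    rw [Module.card_eq_pow_finrank (K := ZMod 2), hL, ZMod.card]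
  have : CharP L 2 := charP_of_injective_algebraMap (algebraMap (ZMod 2) L).injective 2
  let β : (Fin (r * k) → ZMod 2) ≃ₗ[ZMod 2] L :=
    (Module.finBasisOfFinrankEq (ZMod 2) L hL).equivFun.symm
  let pb : PowerBasis K L := Field.powerBasisOfFiniteOfSeparable K L
  have hpb : pb.dim = k := by rw [← pb.finrank, FiniteField.finrank_extension]
  obtain ⟨α⟩ : Nonempty (ι ↪ K) := Function.Embedding.nonempty_of_card_le (hK ▸ hι)
  obtain ⟨c, hc, hs⟩ := exists_twist pb α.injective m t (by rw [hpb]; nlinarith) (by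
    have h1 : Fintype.card ι ^ t * (Fintype.card K ^ m) ^ t ≤ (2 ^ r) ^ ((m + 1) * t) := by
      rw [hK, pow_mul, pow_succ', mul_pow]
      exact Nat.mul_le_mul_right _ (Nat.pow_le_pow_left hι _)
    have h2 : (2 ^ r) ^ 1 ≤ (2 ^ r) ^ ((m + 1) * t) :=
      Nat.pow_le_pow_right (by positivity) (Nat.pos_of_ne_zero (by positivity))
    have h3 : (2 ^ r) ^ ((m + 1) * t + 1) ≤ (2 ^ r) ^ k := Nat.pow_le_pow_right (by positivity) ht
    have h4 : 2 ^ 1 ≤ 2 ^ r := Nat.pow_le_pow_right (by norm_num) (by omega)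
    rw [pow_succ] at h3
    rw [hL', pow_mul]
    nlinarith)
  refine ⟨Fin m → K, inferInstance, inferInstance, inferInstance,
    fun i => AddMonoidHom.mk' (fun z => tw pb c (α i) (β z)) fun z w => ?_, ?_, fun T hT y => ?_,
    fun Y hY => ?_⟩
  · funext j
    simp only [tw, map_add, add_pow_char_pow, mul_add, rep_add, eval_add, Pi.add_apply]
  · rw [Fintype.card_fun, hK, Fintype.card_fin, ← pow_mul]
  · obtain ⟨T', h1, h2⟩ := exists_superset_card_eq hT htι
    let e := T'.equivFinOfCardEq h2
    obtain ⟨z, hz⟩ := hs (fun a => e.symm a) (Subtype.val_injective.comp e.symm.injective)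
      fun a => y (e.symm a)
    refine ⟨β.symm z, fun i hi => ?_⟩
    have := hz (e ⟨i, h1 hi⟩)
    simpa using this
  · have h1 : (Y.image β).card = Y.card := card_image_of_injective _ β.injective
    have h2 := tw_expand pb (Y := Y.image β) hc (by rw [hpb]; exact hk) α.injective
      (by rw [h1]; exact hY)
    rw [h1, hpb] at h2
    simp only [image_image] at h2
    exact h2

end Pool.Agent.MP_36f78e_lc.H75T
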