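import Mathlib

/-!
Functions of low degree on a finite product space.
-/

set_option linter.unusedSectionVars false

namespace Pool.Agent.MP_36f78e_lc.H75T

open Finset
open scoped BigOperators

lemma exists_orth {Ω : Type} [Fintype Ω] (U : Submodule ℝ (Ω → ℝ)) (x : Ω → ℝ) :
    ∃ y ∈ U, ∀ u ∈ U, ∑ ω, u ω * (x ω - y ω) = 0 := by
  let e : EuclideanSpace ℝ Ω ≃ₗ[ℝ] (Ω → ℝ) := WithLp.linearEquiv 2 ℝ (Ω → ℝ)
  obtain ⟨y, hy, z, hz, h⟩ := (U.comap e.toLinearMap).exists_add_mem_mem_orthogonal (e.symm x)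
  refine ⟨e y, hy, fun u hu => ?_⟩
  have h1 := (Submodule.mem_orthogonal _ _).1 hz (e.symm u) (by simpa using hu)
  have h2 : ∀ ω, x ω - e y ω = z ω := fun ω => by
    have := congrArg (fun v => e v ω) h
    simp only [LinearEquiv.apply_symm_apply, map_add, Pi.add_apply] at this
    rw [this, add_sub_cancel_left]
    rfl
  simp only [h2]
  rw [← h1, PiLp.inner_apply]
  exact sum_congr rfl fun ω _ => by simp [e, mul_comm]

variable {ι S : Type} [Fintype ι] [DecidableEq ι] [Fintype S] [Nonempty S]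

/-- The span of the functions that depend on at most `d` coordinates. -/
def Deg (ι S : Type) (d : ℕ) : Submodule ℝ ((ι → S) → ℝ) :=
  Submodule.span ℝ {F | ∃ T : Finset ι, T.card ≤ d ∧ DependsOn F (T : Set ι)}

lemma deg_of {d : ℕ} {F : (ι → S) → ℝ} (T : Finset ι) (h : T.card ≤ d)
    (hF : DependsOn F (T : Set ι)) : F ∈ Deg ι S d :=
  Submodule.subset_span ⟨T, h, hF⟩

lemma deg_mono {d d' : ℕ} (h : d ≤ d') : Deg ι S d ≤ Deg ι S d' :=
  Submodule.span_mono fun _ ⟨T, h1, h2⟩ => ⟨T, h1.trans h, h2⟩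

lemma deg_mul {a b : ℕ} {F G : (ι → S) → ℝ} (hF : F ∈ Deg ι S a) (hG : G ∈ Deg ι S b) :
    F * G ∈ Deg ι S (a + b) := by
  induction hF using Submodule.span_induction with
  | zero => rw [zero_mul]; exact zero_mem _
  | add x y _ _ h1 h2 => rw [add_mul]; exact add_mem h1 h2
  | smul c x _ h1 => rw [smul_mul_assoc]; exact Submodule.smul_mem _ _ h1
  | mem F hF =>
    induction hG using Submodule.span_induction with
    | zero => rw [mul_zero]; exact zero_mem _
    | add x y _ _ h1 h2 => rw [mul_add]; exact add_mem h1 h2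
    | smul c x _ h1 => rw [mul_smul_comm]; exact Submodule.smul_mem _ _ h1
    | mem G hG =>
      obtain ⟨T, h1, h2⟩ := hF
      obtain ⟨T', h3, h4⟩ := hG
      refine deg_of (T ∪ T') ((card_union_le _ _).trans (Nat.add_le_add h1 h3)) fun x y h => ?_
      rw [Pi.mul_apply, Pi.mul_apply, h2 fun i hi => h i (by simp [mem_coe.1 hi]),
        h4 fun i hi => h i (by simp [mem_coe.1 hi])]

lemma deg_prod (T : Finset ι) (g : ι → S → ℝ) :
    (fun ω : ι → S => ∏ j ∈ T, g j (ω j)) ∈ Deg ι S T.card :=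
  deg_of T le_rfl fun _ _ h => prod_congr rfl fun j hj => by rw [h j hj]

lemma deg_coord (j : ι) (g : S → ℝ) : (fun ω : ι → S => g (ω j)) ∈ Deg ι S 1 :=
  deg_of {j} (by simp) fun _ _ h => by rw [h j (by simp)]

/-- The average over one coordinate. -/
noncomputable def avg (j : ι) : ((ι → S) → ℝ) →ₗ[ℝ] ((ι → S) → ℝ) where
  toFun F ω := 𝔼 s, F (Function.update ω j s)
  map_add' F G := by funext ω; simp [expect_add_distrib]
  map_smul' c F := by funext ω; simp [mul_expect]

lemma avg_apply (j : ι) (F : (ι → S) → ℝ) (ω : ι → S) :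
    avg j F ω = 𝔼 s, F (Function.update ω j s) := rfl

lemma avg_update (j : ι) (F : (ι → S) → ℝ) (ω : ι → S) (s : S) :
    avg j F (Function.update ω j s) = avg j F ω := by
  simp only [avg_apply, Function.update_idem]

lemma avg_symm (j : ι) (F G : (ι → S) → ℝ) :
    ∑ ω, avg j F ω * G ω = ∑ ω, F ω * avg j G ω := by
  have hinv : Function.Involutive fun x : (ι → S) × S => (Function.update x.1 j x.2, x.1 j) :=
    fun x => by simp
  have h := Equiv.sum_comp hinv.toPerm
    fun x : (ι → S) × S => F x.1 * G (Function.update x.1 j x.2)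
  simp only [Function.Involutive.coe_toPerm, Function.update_idem, Function.update_eq_self,
    Fintype.sum_prod_type] at h
  simp only [avg_apply, expect_eq_sum_div_card, div_mul_eq_mul_div, ← mul_div_assoc, ← sum_div,
    sum_mul, mul_sum, h]

lemma avg_mul (j : ι) (g : S → ℝ) (F : (ι → S) → ℝ) (ω : ι → S) :
    avg j ((fun ω => g (ω j)) * avg j F) ω = (𝔼 s, g s) * avg j F ω := by
  rw [avg_apply, expect_mul]
  simp only [Pi.mul_apply, Function.update_self, avg_update]

lemma avg_avg (j : ι) (F : (ι → S) → ℝ) : avg j (avg j F) = avg j F := by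
  funext ω
  rw [avg_apply]
  simp only [avg_update, expect_const univ_nonempty]

lemma avg_of_notMem {T : Finset ι} {F : (ι → S) → ℝ} (hF : DependsOn F (T : Set ι)) {j : ι}
    (hj : j ∉ T) : avg j F = F := by
  funext ω
  rw [avg_apply, expect_congr rfl (g := fun _ => F ω) fun s _ => hF fun i hi =>
    Function.update_of_ne (fun e : i = j => hj (e ▸ hi)) _ _, expect_const univ_nonempty]

lemma avg_dep {T : Finset ι} {F : (ι → S) → ℝ} (hF : DependsOn F (T : Set ι)) (j : ι) :
    DependsOn (avg j F) (T.erase j : Finset ι) := fun x y h => by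
  rw [avg_apply, avg_apply]
  refine expect_congr rfl fun s _ => hF fun i hi => ?_
  by_cases e : i = j
  · subst e; simp
  · rw [Function.update_of_ne e, Function.update_of_ne e]
    exact h i (by simp [e, mem_coe.1 hi])

lemma avg_deg {d : ℕ} {F : (ι → S) → ℝ} (hF : F ∈ Deg ι S d) (j : ι) : avg j F ∈ Deg ι S d := by
  induction hF using Submodule.span_induction with
  | zero => rw [map_zero]; exact zero_mem _
  | add x y _ _ h1 h2 => rw [map_add]; exact add_mem h1 h2
  | smul c x _ h1 => rw [map_smul]; exact Submodule.smul_mem _ _ h1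
  | mem F hF =>
    obtain ⟨T, h1, h2⟩ := hF
    exact deg_of (T.erase j) (card_erase_le.trans h1) (avg_dep h2 j)

/-- The number operator. -/
noncomputable def num : ((ι → S) → ℝ) →ₗ[ℝ] ((ι → S) → ℝ) := ∑ j, (LinearMap.id - avg j)

lemma num_apply (F : (ι → S) → ℝ) : num F = ∑ j, (F - avg j F) := by
  simp [num, LinearMap.sum_apply]

lemma num_symm (F G : (ι → S) → ℝ) : ∑ ω, num F ω * G ω = ∑ ω, F ω * num G ω := by
  simp only [num_apply, Finset.sum_apply, Pi.sub_apply, sum_mul, mul_sum, sub_mul, mul_sub]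
  refine sum_comm.trans (Eq.trans ?_ sum_comm)
  exact sum_congr rfl fun j _ => by rw [sum_sub_distrib, sum_sub_distrib, avg_symm]

lemma num_junta {T : Finset ι} {F : (ι → S) → ℝ} (hF : DependsOn F (T : Set ι)) :
    num F = (T.card : ℝ) • F - ∑ j ∈ T, avg j F := by
  rw [num_apply, ← sum_subset (subset_univ T) fun j _ hj => by rw [avg_of_notMem hF hj, sub_self],
    sum_sub_distrib, sum_const, Nat.cast_smul_eq_nsmul]

lemma num_zero {F : (ι → S) → ℝ} (hF : F ∈ Deg ι S 0) : num F = 0 := by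
  induction hF using Submodule.span_induction with
  | zero => rw [map_zero]
  | add x y _ _ h1 h2 => rw [map_add, h1, h2, add_zero]
  | smul c x _ h1 => rw [map_smul, h1, smul_zero]
  | mem F hF =>
    obtain ⟨T, h1, h2⟩ := hF
    rw [num_junta h2, card_eq_zero.1 (Nat.le_zero.1 h1)]
    simp

lemma num_succ {d : ℕ} {F : (ι → S) → ℝ} (hF : F ∈ Deg ι S (d + 1)) :
    num F - ((d : ℝ) + 1) • F ∈ Deg ι S d := by
  induction hF using Submodule.span_induction with
  | zero => simp
  | add x y _ _ h1 h2 =>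
    rw [map_add, smul_add, add_sub_add_comm]
    exact add_mem h1 h2
  | smul c x _ h1 =>
    rw [map_smul, smul_comm, ← smul_sub]
    exact Submodule.smul_mem _ _ h1
  | mem F hF =>
    obtain ⟨T, h1, h2⟩ := hF
    have h3 : ∑ j ∈ T, avg j F ∈ Deg ι S d := Submodule.sum_mem _ fun j hj =>
      deg_of (T.erase j) (by rw [card_erase_of_mem hj]; omega) (avg_dep h2 j)
    rw [num_junta h2, sub_right_comm, ← sub_smul]
    refine sub_mem ?_ h3
    rcases h1.eq_or_lt with h | h
    · rw [h]; simp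
    · exact Submodule.smul_mem _ _ (deg_of T (by omega) h2)

lemma num_deg {d : ℕ} {F : (ι → S) → ℝ} (hF : F ∈ Deg ι S d) : num F ∈ Deg ι S d := by
  rw [num_apply]
  exact Submodule.sum_mem _ fun j _ => sub_mem hF (avg_deg hF j)

lemma num_le (d : ℕ) {F : (ι → S) → ℝ} (hF : F ∈ Deg ι S d) :
    ∑ ω, F ω * num F ω ≤ d * ∑ ω, F ω ^ 2 := by
  induction d generalizing F with
  | zero => simp [num_zero hF]
  | succ d ih =>
    obtain ⟨y, hy, h⟩ := exists_orth (Deg ι S d) F
    obtain ⟨z, hz⟩ : ∃ z, z = F - y := ⟨_, rfl⟩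
    have hF' : F = y + z := by rw [hz, add_sub_cancel]
    have h' : ∀ u ∈ Deg ι S d, ∑ ω, u ω * z ω = 0 := by simpa [hz] using h
    have h1 := h' _ (num_succ (hz ▸ sub_mem hF (deg_mono (Nat.le_succ d) hy) : z ∈ _))
    have h2 := h' _ (num_deg hy)
    have h3 := h' _ hy
    have h4 := ih hy
    have h5 := num_symm y z
    have h6 : 0 ≤ ∑ ω, y ω ^ 2 := sum_nonneg fun _ _ => sq_nonneg _
    have e1 : ∑ ω, F ω * num F ω = ∑ ω, y ω * num y ω + ∑ ω, y ω * num z ω +
        ∑ ω, num y ω * z ω + ∑ ω, num z ω * z ω := by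
      simp only [← sum_add_distrib]
      refine sum_congr rfl fun ω _ => ?_
      rw [hF', map_add, Pi.add_apply, Pi.add_apply]
      ring
    have e2 : ∑ ω, F ω ^ 2 = ∑ ω, y ω ^ 2 + 2 * ∑ ω, y ω * z ω + ∑ ω, z ω ^ 2 := by
      simp only [mul_sum, ← sum_add_distrib]
      refine sum_congr rfl fun ω _ => ?_
      rw [hF', Pi.add_apply]
      ring
    have e3 : ∑ ω, (num z - ((d : ℝ) + 1) • z) ω * z ω =
        ∑ ω, num z ω * z ω - ((d : ℝ) + 1) * ∑ ω, z ω ^ 2 := by
      simp only [mul_sum, ← sum_sub_distrib]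
      refine sum_congr rfl fun ω _ => ?_
      simp only [Pi.sub_apply, Pi.smul_apply, smul_eq_mul]
      ring
    rw [e1, e2]
    push_cast
    nlinarith

/-- The inequality of Efron and Stein type for functions of degree at most `d`. -/
theorem efron (d : ℕ) {F : (ι → S) → ℝ} (hF : F ∈ Deg ι S d) :
    ∑ j, ∑ ω, (F ω - avg j F ω) ^ 2 ≤ d * ∑ ω, F ω ^ 2 := by
  refine le_of_eq_of_le ?_ (num_le d hF)
  simp only [num_apply, Finset.sum_apply, Pi.sub_apply, mul_sum]
  refine Eq.trans (sum_congr rfl fun j _ => ?_) sum_comm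
  have h := avg_symm j F (avg j F)
  rw [avg_avg] at h
  have e1 : ∑ ω, (F ω - avg j F ω) ^ 2 = ∑ ω, F ω * (F ω - avg j F ω) +
      (∑ ω, avg j F ω * avg j F ω - ∑ ω, F ω * avg j F ω) := by
    simp only [← sum_sub_distrib, ← sum_add_distrib]
    exact sum_congr rfl fun ω _ => by ring
  rw [e1, h, sub_self, add_zero]

lemma avg_sq_le (j : ι) (F : (ι → S) → ℝ) : ∑ ω, avg j F ω ^ 2 ≤ ∑ ω, F ω ^ 2 := by
  have h := avg_symm j F (avg j F)
  rw [avg_avg] at h
  have e1 : ∑ ω, (F ω - avg j F ω) ^ 2 = ∑ ω, F ω ^ 2 - ∑ ω, avg j F ω ^ 2 +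
      2 * (∑ ω, avg j F ω * avg j F ω - ∑ ω, F ω * avg j F ω) := by
    simp only [mul_sub, mul_sum, ← sum_sub_distrib, ← sum_add_distrib]
    exact sum_congr rfl fun ω _ => by ring
  have h2 : 0 ≤ ∑ ω, (F ω - avg j F ω) ^ 2 := sum_nonneg fun _ _ => sq_nonneg _
  rw [e1, h] at h2
  linarith

/-- The map `p` preserves the means of the functions of degree at most `t`. -/
def Ind {Z : Type} [Fintype Z] (t : ℕ) (p : Z → ι → S) : Prop :=
  ∀ F ∈ Deg ι S t, 𝔼 z, F (p z) = 𝔼 ω, F ω

end Pool.Agent.MP_36f78e_lc.H75T
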