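import Mathlib
import Pool.Agent.MP_36f78e_lc.H75T.Junta

/-!
Truncated inclusion and exclusion under limited independence.
-/

set_option linter.unusedSectionVars false

namespace Pool.Agent.MP_36f78e_lc.H75T

open Finset
open scoped BigOperators

/-- The polynomial that is one at zero and vanishes at `1, ..., w`. -/
noncomputable def tq (w : ℕ) (x : ℝ) : ℝ := ∏ k ∈ range w, (1 - x / (k + 1))

lemma tq_zero (w : ℕ) : tq w 0 = 1 := by simp [tq]

lemma tq_succ (w n : ℕ) : tq w (n + 1) = (-1) ^ w * (n.choose w : ℝ) := by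
  induction w with
  | zero => simp [tq]
  | succ w ih =>
    have h : (n.choose (w + 1) : ℝ) * (w + 1) = n.choose w * (n - w) := by
      rcases le_or_gt w n with h | h
      · have := Nat.choose_succ_right_eq n w
        rw [← Nat.cast_sub h]
        exact_mod_cast this
      · rw [Nat.choose_eq_zero_of_lt h, Nat.choose_eq_zero_of_lt (by omega)]
        simp
    have h0 : (w : ℝ) + 1 ≠ 0 := by positivity
    rw [tq, prod_range_succ, ← tq, ih, pow_succ, ← mul_left_inj' h0, mul_assoc _ _ ((w : ℝ) + 1),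
      mul_assoc _ (n.choose (w + 1) : ℝ), h]
    field_simp
    ring

lemma choose_le (n w : ℕ) : n.choose w * 2 ^ w ≤ 3 ^ n := by
  rcases le_or_gt w n with h | h
  · have e := add_pow 2 1 n (R := ℕ)
    simp only [one_pow, mul_one, Nat.cast_id] at e
    rw [show 3 = 2 + 1 from rfl, e, mul_comm]
    exact single_le_sum (f := fun m => 2 ^ m * n.choose m) (fun _ _ => Nat.zero_le _)
      (mem_range.2 (by omega))
  · simp [Nat.choose_eq_zero_of_lt h]

lemma tq_le (w n : ℕ) : tq w n ^ 2 * n ≤ 18 ^ n / 4 ^ w := by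
  rcases n with _ | n
  · simp
  · have h1 : ((n.choose w : ℝ) * 2 ^ w) ^ 2 ≤ (3 ^ n) ^ 2 :=
      pow_le_pow_left₀ (by positivity) (by exact_mod_cast choose_le n w) 2
    have h2 : ((n + 1 : ℕ) : ℝ) ≤ 2 ^ (n + 1) := by exact_mod_cast Nat.lt_two_pow_self.le
    have e1 : ((-1 : ℝ) ^ w) ^ 2 = 1 := by rw [← pow_mul, mul_comm, pow_mul]; simp
    have e2 : (4 : ℝ) ^ w = (2 ^ w) ^ 2 := by rw [← pow_mul, mul_comm, pow_mul]; norm_num
    have e3 : (18 : ℝ) ^ (n + 1) = 9 * ((3 ^ n) ^ 2 * 2 ^ (n + 1)) := by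
      rw [← pow_mul, mul_comm n, pow_mul, show (18 : ℝ) = 3 ^ 2 * 2 by norm_num, mul_pow, pow_succ]
      ring
    rw [le_div_iff₀ (by positivity), Nat.cast_succ n, tq_succ, mul_pow, e1, one_mul, e2, e3,
      ← Nat.cast_succ]
    have h3 := mul_le_mul h1 h2 (by positivity) (by positivity)
    have h4 : (0 : ℝ) ≤ (3 ^ n) ^ 2 * 2 ^ (n + 1) := by positivity
    rw [mul_pow] at h3
    linarith

variable {ι S : Type} [Fintype ι] [DecidableEq ι] [Fintype S] [Nonempty S]

lemma expect_prod (h : ι → S → ℝ) : 𝔼 ω : ι → S, ∏ j, h j (ω j) = ∏ j, 𝔼 s, h j s := by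
  simp only [expect_eq_sum_div_card, prod_div_distrib, Fintype.prod_sum, card_univ,
    Fintype.card_pi, Nat.cast_prod]

lemma tq_deg (w : ℕ) {F : (ι → S) → ℝ} (hF : F ∈ Deg ι S 1) :
    (fun ω => tq w (F ω)) ∈ Deg ι S w := by
  induction w with
  | zero => exact deg_of ∅ (by simp) fun _ _ _ => by simp [tq]
  | succ w ih =>
    have h1 : (fun _ => 1 : (ι → S) → ℝ) ∈ Deg ι S 1 := deg_of ∅ (by simp) fun _ _ _ => rfl
    have h2 := deg_mul ih (sub_mem h1 (Submodule.smul_mem _ (1 / ((w : ℝ) + 1)) hF))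
    convert h2 using 1
    funext ω
    simp only [tq, prod_range_succ, Pi.mul_apply, Pi.sub_apply, Pi.smul_apply, smul_eq_mul]
    ring

theorem bonf {Z : Type} [Fintype Z] {t w : ℕ} {p : Z → ι → S} (hp : Ind t p) (J : Finset ι)
    (ht : J.card + (2 * w + 1) ≤ t) (g b : ι → S → ℝ) (hg0 : ∀ j s, 0 ≤ g j s)
    (hg1 : ∀ j, 𝔼 s, g j s = 1) (hgJ : ∀ j ∉ J, ∀ s, g j s = 1)
    (hb : ∀ j s, b j s = 0 ∨ b j s = 1) (hβ : ∀ j, 𝔼 s, g j s * b j s ≤ 1 / 2)
    (hM : 14 * ∑ j, 𝔼 s, g j s * b j s + 1 ≤ w) :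
    ∃ Φ ∈ Deg ι S w, (∀ ω, (∀ j, b j (ω j) = 0) → Φ ω = 1) ∧
      0 < 𝔼 z, (∏ j, g j (p z j)) * Φ (p z) ^ 2 ∧
      2 / 3 * 𝔼 z, (∏ j, g j (p z j)) * Φ (p z) ^ 2 ≤
        𝔼 z, if ∀ j, b j (p z j) = 0 then ∏ j, g j (p z j) else 0 := by
  classical
  set β : ι → ℝ := fun j => 𝔼 s, g j s * b j s with hβd
  set M : ℝ := ∑ j, β j with hMd
  have hb0 : ∀ j s, 0 ≤ b j s := fun j s => by rcases hb j s with h | h <;> simp [h]
  have hβ0 : ∀ j, 0 ≤ β j := fun j => expect_nonneg fun s _ => mul_nonneg (hg0 _ _) (hb0 _ _)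
  set cnt : (ι → S) → ℝ := fun ω => ∑ j, b j (ω j) with hcnt
  have hc1 : cnt ∈ Deg ι S 1 := by
    have := Submodule.sum_mem (Deg ι S 1) (t := univ) fun j _ => deg_coord j (b j)
    convert this using 1
    funext ω
    simp [hcnt, Finset.sum_apply]
  have hcn : ∀ ω, cnt ω = (univ.filter fun j => b j (ω j) = 1).card := fun ω => by
    rw [card_filter]
    push_cast
    exact sum_congr rfl fun j _ => by rcases hb j (ω j) with h | h <;> simp [h]
  set ν : (ι → S) → ℝ := fun ω => ∏ j, g j (ω j) with hν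
  have hν0 : ∀ ω, 0 ≤ ν ω := fun ω => prod_nonneg fun j _ => hg0 _ _
  have hνd : ν ∈ Deg ι S J.card := by
    convert deg_prod J g using 2 with ω
    exact (prod_subset (subset_univ J) fun j _ hj => hgJ j hj _).symm
  set Φ : (ι → S) → ℝ := fun ω => tq w (cnt ω) with hΦ
  have hΦd : Φ ∈ Deg ι S w := tq_deg w hc1
  have hΦ1 : ∀ ω, (∀ j, b j (ω j) = 0) → Φ ω = 1 := fun ω h => by
    simp [hΦ, hcnt, h, tq_zero]
  have t1 := hp _ (deg_mono (by omega) (deg_mul hνd (deg_mul hΦd hΦd)))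
  have t2 := hp _ (deg_mono (by omega) (deg_mul hνd (deg_mul (deg_mul hΦd hΦd) hc1)))
  simp only [Pi.mul_apply, ← sq, Pi.pow_apply] at t1 t2
  have lo : Real.exp (-2 * M) ≤ 𝔼 ω, ν ω * Φ ω ^ 2 := by
    calc _ = ∏ j, Real.exp (-2 * β j) := by rw [← Real.exp_sum, hMd, mul_sum]
      _ ≤ ∏ j, 𝔼 s, g j s * (1 - b j s) := by
          refine prod_le_prod (fun _ _ => (Real.exp_pos _).le) fun j _ => ?_
          simp only [mul_sub, mul_one, expect_sub_distrib, hg1]
          change _ ≤ 1 - β j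
          have h1 := Real.add_one_le_exp (2 * β j)
          have h2 : β j ≤ 1 / 2 := hβ j
          rw [neg_mul, Real.exp_neg, inv_le_iff_one_le_mul₀ (Real.exp_pos _)]
          nlinarith [hβ0 j]
      _ = 𝔼 ω : ι → S, ∏ j, g j (ω j) * (1 - b j (ω j)) :=
          (expect_prod fun j s => g j s * (1 - b j s)).symm
      _ ≤ _ := by
          refine expect_le_expect fun ω _ => ?_
          by_cases h : ∀ j, b j (ω j) = 0
          · simp [hΦ1 ω h, h, hν]
          · push Not at h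
            obtain ⟨j, hj⟩ := h
            rw [prod_eq_zero (mem_univ j) (by rw [(hb _ _).resolve_left hj]; simp)]
            exact mul_nonneg (hν0 ω) (sq_nonneg _)
  have up : 𝔼 ω, ν ω * (Φ ω ^ 2 * cnt ω) ≤ Real.exp (17 * M) / 4 ^ w := by
    calc _ ≤ 𝔼 ω : ι → S, (∏ j, g j (ω j) * (1 + 17 * b j (ω j))) / 4 ^ w := by
          refine expect_le_expect fun ω _ => ?_
          rw [prod_mul_distrib, mul_div_assoc]
          refine mul_le_mul_of_nonneg_left ?_ (hν0 ω)
          have e : ∏ j, (1 + 17 * b j (ω j)) = 18 ^ (univ.filter fun j => b j (ω j) = 1).card := by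
            rw [← prod_const, prod_filter]
            exact prod_congr rfl fun j _ => by
              rcases hb j (ω j) with h | h <;> norm_num [h]
          simp only [hΦ, hcn, e]
          exact tq_le _ _
      _ = (∏ j, 𝔼 s, g j s * (1 + 17 * b j s)) / 4 ^ w := by
          rw [← expect_div, expect_prod fun j s => g j s * (1 + 17 * b j s)]
      _ ≤ _ := by
          refine div_le_div_of_nonneg_right ?_ (by positivity)
          have e : ∀ j, 𝔼 s, g j s * (1 + 17 * b j s) = 1 + 17 * β j := fun j => by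
            simp only [mul_add, mul_one, expect_add_distrib, hg1, mul_left_comm _ (17 : ℝ),
              ← mul_expect, hβd]
          simp only [e]
          rw [hMd, mul_sum]
          exact Real.prod_one_add_le_exp_sum _ fun j => by linarith [hβ0 j]
  have hM0 : 0 ≤ M := sum_nonneg fun j _ => hβ0 j
  have num : 3 * (Real.exp (17 * M) / 4 ^ w) ≤ Real.exp (-2 * M) := by
    have h1 : Real.exp (19 / 14) ≤ 4 := by
      have h2 := Real.exp_one_lt_d9
      have h3 := Real.exp_bound_div_one_sub_of_interval (x := 5 / 28) (by norm_num) (by norm_num)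
      have h4 := Real.exp_pos (5 / 28 : ℝ)
      rw [show (19 / 14 : ℝ) = 1 + (5 / 28 + 5 / 28) by norm_num, Real.exp_add, Real.exp_add]
      have h5 : Real.exp (5 / 28) * Real.exp (5 / 28) ≤ 1.44 := by
        have h6 := Real.exp_bound' (x := 5 / 28) (by norm_num) (by norm_num) (n := 3) (by norm_num)
        simp only [sum_range_succ, range_zero, sum_empty, Nat.factorial] at h6
        norm_num at h6
        nlinarith
      nlinarith
    have h2 : 3 ≤ Real.exp (19 / 14) := by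
      have := Real.quadratic_le_exp_of_nonneg (x := 19 / 14) (by norm_num)
      linarith
    have h3 : Real.exp (19 / 14) * Real.exp (17 * M) ≤ Real.exp (-2 * M) * Real.exp (19 / 14) ^ w := by
      rw [← Real.exp_nat_mul, ← Real.exp_add, ← Real.exp_add]
      exact Real.exp_le_exp.2 (by linarith)
    rw [← mul_div_assoc, div_le_iff₀ (by positivity)]
    calc _ ≤ Real.exp (19 / 14) * Real.exp (17 * M) :=
          mul_le_mul_of_nonneg_right h2 (Real.exp_pos _).le
      _ ≤ _ := h3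
      _ ≤ _ := mul_le_mul_of_nonneg_left (pow_le_pow_left₀ (Real.exp_pos _).le h1 _)
          (Real.exp_pos _).le
  have key : 𝔼 z, ν (p z) * Φ (p z) ^ 2 ≤
      (𝔼 z, if ∀ j, b j (p z j) = 0 then ν (p z) else 0) +
        𝔼 z, ν (p z) * (Φ (p z) ^ 2 * cnt (p z)) := by
    rw [← expect_add_distrib]
    refine expect_le_expect fun z _ => ?_
    split_ifs with h
    · simp [hΦ1 _ h, hcnt, h]
    · push Not at h
      obtain ⟨j, hj⟩ := h
      have h1 : 1 ≤ cnt (p z) := ((hb _ _).resolve_left hj).ge.trans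
        (single_le_sum (f := fun j => b j (p z j)) (fun _ _ => hb0 _ _) (mem_univ j))
      rw [zero_add]
      exact mul_le_mul_of_nonneg_left (le_mul_of_one_le_right (sq_nonneg _) h1) (hν0 _)
  refine ⟨Φ, hΦd, hΦ1, (Real.exp_pos _).trans_le (lo.trans t1.ge), ?_⟩
  change 2 / 3 * 𝔼 z, ν (p z) * Φ (p z) ^ 2 ≤ 𝔼 z, if ∀ j, b j (p z j) = 0 then ν (p z) else 0
  linarith

end Pool.Agent.MP_36f78e_lc.H75T
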