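import Mathlib
import Pool.Agent.MP_36f78e_lc.H75T.Junta

/-!
A vector supported on a thin product set has a small overlap with the functions of low degree.
-/

set_option linter.unusedSectionVars false

namespace Pool.Agent.MP_36f78e_lc.H75T

open Finset
open scoped BigOperators

variable {ι S : Type} [Fintype ι] [DecidableEq ι] [Fintype S] [Nonempty S]

lemma expect_cs {Z : Type} [Fintype Z] (f g : Z → ℝ) :
    (𝔼 z, f z * g z) ^ 2 ≤ (𝔼 z, f z ^ 2) * 𝔼 z, g z ^ 2 :=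
  expect_mul_sq_le_sq_mul_sq _ _ _

lemma create_le (w : ℕ) (c : ι → S → ℝ) (hc : ∀ j, 𝔼 s, c j s = 0) {Φ : (ι → S) → ℝ}
    (hΦ : Φ ∈ Deg ι S w) :
    ∑ ω, (∑ j, (fun ω : ι → S => c j (ω j)) * avg j Φ) ω ^ 2 ≤
      ((w : ℝ) + 1) * (∑ j, 𝔼 s, c j s ^ 2) * ∑ ω, Φ ω ^ 2 := by
  set Θ : (ι → S) → ℝ := ∑ j, (fun ω : ι → S => c j (ω j)) * avg j Φ with hΘ
  have h1 : Θ ∈ Deg ι S (w + 1) := Submodule.sum_mem _ fun j _ => by
    rw [add_comm]
    exact deg_mul (deg_coord j (c j)) (avg_deg hΦ j)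
  have h2 := efron _ h1
  have h3 : ∑ ω, Θ ω ^ 2 = ∑ x : ι × (ι → S),
      (Θ x.2 - avg x.1 Θ x.2) * (c x.1 (x.2 x.1) * avg x.1 Φ x.2) := by
    rw [Fintype.sum_prod_type]
    have e : ∀ j, ∑ ω, (Θ ω - avg j Θ ω) * (c j (ω j) * avg j Φ ω) =
        ∑ ω, Θ ω * (c j (ω j) * avg j Φ ω) := fun j => by
      have h := avg_symm j Θ ((fun ω : ι → S => c j (ω j)) * avg j Φ)
      simp only [avg_mul, hc, zero_mul, mul_zero, sum_const_zero, Pi.mul_apply] at h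
      simp only [sub_mul, sum_sub_distrib, h, sub_zero]
    simp only [e]
    rw [sum_comm]
    refine sum_congr rfl fun ω _ => ?_
    rw [← mul_sum, sq]
    congr 1
    simp [hΘ, Finset.sum_apply]
  have h4 : ∑ x : ι × (ι → S), (c x.1 (x.2 x.1) * avg x.1 Φ x.2) ^ 2 ≤
      (∑ j, 𝔼 s, c j s ^ 2) * ∑ ω, Φ ω ^ 2 := by
    rw [Fintype.sum_prod_type, sum_mul]
    refine sum_le_sum fun j _ => ?_
    have h := avg_symm j ((fun ω : ι → S => c j (ω j) ^ 2) * avg j Φ) (avg j Φ)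
    rw [avg_avg] at h
    simp only [avg_mul j fun s => c j s ^ 2, Pi.mul_apply] at h
    calc _ = ∑ ω, c j (ω j) ^ 2 * avg j Φ ω * avg j Φ ω := sum_congr rfl fun ω _ => by ring
      _ = (𝔼 s, c j s ^ 2) * ∑ ω, avg j Φ ω ^ 2 := by
          rw [← h, mul_sum]
          exact sum_congr rfl fun ω _ => by ring
      _ ≤ _ := mul_le_mul_of_nonneg_left (avg_sq_le j Φ) (expect_nonneg fun _ _ => sq_nonneg _)
  have h5 := sum_mul_sq_le_sq_mul_sq univ (fun x : ι × (ι → S) => Θ x.2 - avg x.1 Θ x.2)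
    fun x => c x.1 (x.2 x.1) * avg x.1 Φ x.2
  rw [← h3, Fintype.sum_prod_type (f := fun x : ι × (ι → S) => (Θ x.2 - avg x.1 Θ x.2) ^ 2)] at h5
  have h6 : 0 ≤ ∑ ω, Θ ω ^ 2 := sum_nonneg fun _ _ => sq_nonneg _
  have h7 : 0 ≤ (∑ j, 𝔼 s, c j s ^ 2) * ∑ ω, Φ ω ^ 2 := (sum_nonneg fun _ _ => sq_nonneg _).trans h4
  have h8 := h5.trans (mul_le_mul h2 h4 (sum_nonneg fun _ _ => sq_nonneg _) (by positivity))
  push_cast at h8
  rw [mul_assoc]
  rcases h6.eq_or_lt with h | h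
  · rw [← h]; positivity
  · refine le_of_mul_le_mul_left ?_ h
    nlinarith

theorem sound {Z : Type} [Fintype Z] {t w : ℕ} {p : Z → ι → S} (hp : Ind t p)
    (ht : 2 * (w + 1) ≤ t) (b : ι → S → ℝ) (hb : ∀ j s, b j s = 0 ∨ b j s = 1)
    (hM : 12 * ((w : ℝ) + 1) ≤ ∑ j, 𝔼 s, b j s) (ψ : Z → ℝ)
    (hψ : ∀ z, ψ z ≠ 0 → ∀ j, b j (p z j) = 0) {Φ : (ι → S) → ℝ} (hΦ : Φ ∈ Deg ι S w) :
    3 * (𝔼 z, ψ z * Φ (p z)) ^ 2 ≤ (𝔼 z, ψ z ^ 2) * 𝔼 z, Φ (p z) ^ 2 := by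
  set β : ι → ℝ := fun j => 𝔼 s, b j s with hβ
  set M : ℝ := ∑ j, β j with hMd
  have hβ0 : ∀ j, 0 ≤ β j := fun j => expect_nonneg fun s _ => by
    rcases hb j s with h | h <;> simp [h]
  have hβ1 : ∀ j, β j ≤ 1 := fun j => expect_le univ_nonempty fun s _ => by
    rcases hb j s with h | h <;> simp [h]
  set c : ι → S → ℝ := fun j s => b j s - β j with hc
  have hc0 : ∀ j, 𝔼 s, c j s = 0 := fun j => by
    simp only [hc, expect_sub_distrib, expect_const univ_nonempty, hβ, sub_self]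
  have hc2 : ∀ j, 𝔼 s, c j s ^ 2 ≤ β j := fun j => by
    have e : ∀ s, c j s ^ 2 = (1 - 2 * β j) * b j s + β j ^ 2 := fun s => by
      rcases hb j s with h | h <;> simp only [hc, h] <;> ring
    simp only [e, expect_add_distrib, ← mul_expect, expect_const univ_nonempty]
    change (1 - 2 * β j) * β j + _ ≤ _
    nlinarith [sq_nonneg (β j)]
  set Θ : (ι → S) → ℝ := ∑ j, (fun ω : ι → S => c j (ω j)) * avg j Φ with hΘ
  have h1 : Θ ∈ Deg ι S (w + 1) := Submodule.sum_mem _ fun j _ => by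
    rw [add_comm]
    exact deg_mul (deg_coord j (c j)) (avg_deg hΦ j)
  have tr : ∀ F ∈ Deg ι S (w + 1), 𝔼 z, F (p z) ^ 2 = (∑ ω, F ω ^ 2) / Fintype.card (ι → S) := by
    intro F hF
    have := hp (F * F) (deg_mono (by omega) (deg_mul hF hF))
    simp only [Pi.mul_apply, ← sq] at this
    rw [this, expect_eq_sum_div_card, card_univ]
  have hN : (0 : ℝ) < Fintype.card (ι → S) := by exact_mod_cast Fintype.card_pos
  set a : ℝ := 𝔼 z, ψ z * Φ (p z) with ha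
  set u : ℝ := 𝔼 z, ψ z ^ 2 with hu
  set v : ℝ := 𝔼 z, Φ (p z) ^ 2 with hv
  have hu0 : 0 ≤ u := expect_nonneg fun _ _ => sq_nonneg _
  have hv0 : 0 ≤ v := expect_nonneg fun _ _ => sq_nonneg _
  have hv' : v = (∑ ω, Φ ω ^ 2) / Fintype.card (ι → S) := tr Φ (deg_mono (Nat.le_succ w) hΦ)
  set x : ℝ := 𝔼 z, ψ z * Θ (p z) with hx
  set y : ℝ := ∑ j, β j * 𝔼 z, ψ z * (Φ - avg j Φ) (p z) with hy
  have e : M * a = y - x := by
    simp only [ha, hy, hx, mul_expect]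
    rw [← expect_sum_comm, ← expect_sub_distrib]
    refine expect_congr rfl fun z _ => ?_
    by_cases h : ψ z = 0
    · simp [h]
    · simp only [hΘ, hMd, Finset.sum_apply, Pi.mul_apply, Pi.sub_apply, hc, hψ z h, sum_mul,
        mul_sum, ← sum_sub_distrib]
      exact sum_congr rfl fun j _ => by ring
  have hx2 : x ^ 2 ≤ u * (((w : ℝ) + 1) * M * v) := by
    refine (expect_cs _ _).trans (mul_le_mul_of_nonneg_left ?_ hu0)
    rw [tr Θ h1, hv', ← mul_div_assoc]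
    refine div_le_div_of_nonneg_right ((create_le w c hc0 hΦ).trans ?_) hN.le
    exact mul_le_mul_of_nonneg_right (mul_le_mul_of_nonneg_left (sum_le_sum fun j _ => hc2 j)
      (by positivity)) (sum_nonneg fun _ _ => sq_nonneg _)
  have hM0 : 0 < M := lt_of_lt_of_le (by positivity) hM
  have hy2 : y ^ 2 ≤ M * (u * (w * v)) := by
    refine (sum_mul_sq_le_sq_mul_sq _ _ _).trans (mul_le_mul (sum_le_sum fun j _ => ?_) ?_
      (sum_nonneg fun _ _ => sq_nonneg _) hM0.le)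
    · nlinarith [hβ0 j, hβ1 j]
    · refine (sum_le_sum fun j _ => expect_cs _ _).trans ?_
      rw [← mul_sum]
      refine mul_le_mul_of_nonneg_left ?_ hu0
      rw [sum_congr rfl fun j _ => tr (Φ - avg j Φ)
        (deg_mono (Nat.le_succ w) (sub_mem hΦ (avg_deg hΦ j))), ← sum_div, hv', ← mul_div_assoc]
      exact div_le_div_of_nonneg_right (efron w hΦ) hN.le
  have h2 : M * (M * a ^ 2) ≤ M * (4 * ((w : ℝ) + 1) * (u * v)) := by
    have e2 : M * (M * a ^ 2) = (y - x) ^ 2 := by rw [← e]; ring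
    have h3 : 0 ≤ M * (u * v) := by positivity
    rw [e2]
    nlinarith [sq_nonneg (x + y)]
  have h3 := le_of_mul_le_mul_left h2 hM0
  have h4 : 12 * ((w : ℝ) + 1) * a ^ 2 ≤ M * a ^ 2 := mul_le_mul_of_nonneg_right hM (sq_nonneg _)
  have h5 : (0 : ℝ) < 4 * ((w : ℝ) + 1) := by positivity
  refine le_of_mul_le_mul_left ?_ h5
  nlinarith

end Pool.Agent.MP_36f78e_lc.H75T
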