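import Mathlib
import Pool.Agent.MP_36f78e_lc.H24.Cl.Fam
import Pool.Agent.MP_36f78e_lc.H75T.Sound

/-!
The Hadamard basis and the functions of low degree in the symbols of an additive code.
-/

set_option linter.unusedSectionVars false

namespace Pool.Agent.MP_36f78e_lc.H75T

open Finset Pool.Agent.MP_36f78e_lc.H24.Cl
open scoped BigOperators

variable {ι S : Type} [Fintype ι] [DecidableEq ι] [Fintype S] [AddCommGroup S]

lemma ind_of_surj {Z : Type} [Fintype Z] [AddCommGroup Z] (π : ι → Z →+ S) {t : ℕ}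
    (hs : ∀ T : Finset ι, T.card ≤ t → ∀ y : ι → S, ∃ z, ∀ i ∈ T, π i z = y i) :
    Ind t fun z i => π i z := by
  intro F hF
  induction hF using Submodule.span_induction with
  | zero => simp
  | add x y _ _ h1 h2 => simp only [Pi.add_apply, expect_add_distrib, h1, h2]
  | smul c x _ h1 => simp only [Pi.smul_apply, smul_eq_mul, ← mul_expect, h1]
  | mem F hF =>
    obtain ⟨T, h1, h2⟩ := hF
    have e1 : ∀ ω : ι → S, 𝔼 z, F (fun i => π i z) = 𝔼 z, F ((fun i => π i z) + ω) := fun ω => by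
      obtain ⟨x, hx⟩ := hs T h1 ω
      refine (Fintype.expect_equiv (Equiv.addRight x) _ _ fun z => h2 fun i hi => ?_).symm
      simp [hx i hi]
    have e2 : ∀ z, 𝔼 ω, F ((fun i => π i z) + ω) = 𝔼 ω, F ω := fun z =>
      Fintype.expect_equiv (Equiv.addLeft _) _ _ fun ω => rfl
    calc _ = 𝔼 ω : ι → S, 𝔼 z, F ((fun i => π i z) + ω) := by
          simp only [← e1, expect_const univ_nonempty]
      _ = _ := by rw [expect_comm]; simp only [e2, expect_const univ_nonempty]

variable {n : ℕ}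

/-- The real character attached to a bit string. -/
def rchi (e : Fin n → Bool) : AddChar (Fin n → ZMod 2) ℝ where
  toFun x := ∏ i, if e i = true ∧ x i = 1 then -1 else 1
  map_zero_eq_one' := by simp
  map_add_eq_mul' x y := by
    rw [← prod_mul_distrib]
    refine prod_congr rfl fun i _ => ?_
    rw [Pi.add_apply]
    generalize x i = a
    generalize y i = b
    have h : ∀ c : ZMod 2, c = 0 ∨ c = 1 := by decide
    have h2 : (1 + 1 : ZMod 2) = 0 := by decide
    rcases h a with rfl | rfl <;> rcases h b with rfl | rfl <;> cases e i <;> simp [h2]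

/-- The real Hadamard matrix. -/
noncomputable def hr (e z : Fin n → Bool) : ℝ := rchi e (toZ z) / √2 ^ n

lemma hr_coe (e z : Fin n → Bool) : (hr e z : ℂ) = Hn n e z := by
  rw [Hn_eq, hr, sgn]
  change (((∏ i, if e i = true ∧ toZ z i = 1 then -1 else 1 : ℝ) / √2 ^ n : ℝ) : ℂ) = _
  simp only [toZ_eq_one]
  push_cast
  congr 1
  exact prod_congr rfl fun i _ => by split_ifs <;> simp

lemma hr_symm (e z : Fin n → Bool) : hr e z = hr z e := by
  apply Complex.ofReal_injective
  simp only [hr_coe, Hn, and_comm]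

lemma hr_orth (x y : Fin n → Bool) : ∑ z, hr x z * hr y z = if x = y then 1 else 0 := by
  apply Complex.ofReal_injective
  have h := Hn_orth x y
  simp only [← hr_coe, Complex.star_def, Complex.conj_ofReal] at h
  push_cast
  rw [h]
  split_ifs <;> simp

lemma parseval (f g : (Fin n → Bool) → ℝ) :
    ∑ e, (∑ z, hr e z * f z) * ∑ z, hr e z * g z = ∑ z, f z * g z := by
  simp only [sum_mul_sum]
  rw [sum_comm]
  refine sum_congr rfl fun z _ => ?_
  rw [sum_comm]
  have e : ∀ y, ∑ e, hr e z * f z * (hr e y * g y) = if z = y then f z * g y else 0 := fun y => by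
    have h := hr_orth z y
    calc _ = f z * g y * ∑ e, hr z e * hr y e := by
          rw [mul_sum]
          exact sum_congr rfl fun e _ => by rw [hr_symm e z, hr_symm e y]; ring
      _ = _ := by rw [h]; split_ifs <;> simp
  simp [e]

open Classical in
/-- The Hadamard vectors that are functions of degree at most `w` of the symbols. -/
noncomputable def low (w : ℕ) (p : (Fin n → Bool) → ι → S) : Finset (Fin n → Bool) :=
  univ.filter fun e => ∃ F ∈ Deg ι S w, ∀ z, hr e z = F (p z)

lemma low_orth (π : ι → (Fin n → ZMod 2) →+ S) {w : ℕ} {e : Fin n → Bool}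
    (he : e ∉ low w fun z i => π i (toZ z)) {Φ : (ι → S) → ℝ} (hΦ : Φ ∈ Deg ι S w) :
    ∑ z, hr e z * Φ (fun i => π i (toZ z)) = 0 := by
  classical
  induction hΦ using Submodule.span_induction with
  | zero => simp
  | add x y _ _ h1 h2 => simp only [Pi.add_apply, mul_add, sum_add_distrib, h1, h2, add_zero]
  | smul c x _ h1 =>
    simp only [Pi.smul_apply, smul_eq_mul, mul_left_comm _ c, ← mul_sum, h1, mul_zero]
  | mem F hF =>
    obtain ⟨T, h1, h2⟩ := hF
    by_cases h : ∀ x, (∀ i ∈ T, π i x = 0) → rchi e x = 1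
    · refine absurd (mem_filter.2 ⟨mem_univ _, fun ω =>
        rchi e (Classical.epsilon fun x => ∀ i ∈ T, π i x = ω i) / √2 ^ n,
        deg_of T h1 fun ω ω' hω => ?_, fun z => ?_⟩) he
      · have : (fun x => ∀ i ∈ T, π i x = ω i) = fun x => ∀ i ∈ T, π i x = ω' i :=
          funext fun x => propext (forall₂_congr fun i hi => by rw [hω i hi])
        simp only [this]
      · have h3 := Classical.epsilon_spec (p := fun x => ∀ i ∈ T, π i x = π i (toZ z))
          ⟨toZ z, fun _ _ => rfl⟩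
        beta_reduce
        generalize (Classical.epsilon fun x => ∀ i ∈ T, π i x = π i (toZ z)) = x at h3 ⊢
        have h4 := h (x - toZ z) fun i hi => by rw [map_sub, h3 i hi, sub_self]
        rw [hr, ← add_sub_cancel (toZ z) x, AddChar.map_add_eq_mul, h4, mul_one]
    · push Not at h
      obtain ⟨x, hx, hx1⟩ := h
      have e1 : ∑ z, hr e z * F (fun i => π i (toZ z)) =
          (∑ y, rchi e y * F fun i => π i y) / √2 ^ n := by
        rw [← toZ_bij.sum_comp, sum_div]
        exact sum_congr rfl fun z _ => by rw [hr, div_mul_eq_mul_div]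
      have e2 : ∑ y, rchi e y * F (fun i => π i y) =
          rchi e x * ∑ y, rchi e y * F fun i => π i y := by
        rw [mul_sum, ← Equiv.sum_comp (Equiv.addLeft x)]
        refine sum_congr rfl fun y _ => ?_
        rw [Equiv.coe_addLeft, AddChar.map_add_eq_mul, mul_assoc]
        congr 2
        exact h2 fun i hi => by simp [hx i hi]
      have e3 : ∑ y, rchi e y * F (fun i => π i y) = 0 := by
        by_contra h
        exact hx1 (mul_right_cancel₀ h (e2.symm.trans (one_mul _).symm))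
      rw [e1, e3, zero_div]

lemma low_sound {t w : ℕ} {p : (Fin n → Bool) → ι → S} (hp : Ind t p)
    (ht : 2 * (w + 1) ≤ t) (b : ι → S → ℝ) (hb : ∀ j s, b j s = 0 ∨ b j s = 1)
    (hM : 12 * ((w : ℝ) + 1) ≤ ∑ j, 𝔼 s, b j s) (ψ : (Fin n → Bool) → ℝ)
    (hψ : ∀ z, ψ z ≠ 0 → ∀ j, b j (p z j) = 0) :
    3 * ∑ e ∈ low w p, (∑ z, hr e z * ψ z) ^ 2 ≤ ∑ z, ψ z ^ 2 := by
  classical
  choose! F hF1 hF2 using fun e (he : e ∈ low w p) => (mem_filter.1 he).2
  set a : (Fin n → Bool) → ℝ := fun e => ∑ z, hr e z * ψ z with ha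
  have h := sound hp ht b hb hM ψ hψ (Φ := ∑ e ∈ low w p, a e • F e)
    (Submodule.sum_mem _ fun e he => Submodule.smul_mem _ _ (hF1 e he))
  have e1 : ∀ z, (∑ e ∈ low w p, a e • F e) (p z) = ∑ e ∈ low w p, a e * hr e z := fun z => by
    rw [Finset.sum_apply]
    exact sum_congr rfl fun e he => by rw [hF2 e he z]; rfl
  have e2 : ∑ z, ψ z * ∑ e ∈ low w p, a e * hr e z = ∑ e ∈ low w p, a e ^ 2 := by
    simp only [mul_sum]
    rw [sum_comm]
    refine sum_congr rfl fun e _ => ?_
    rw [sq]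
    nth_rewrite 2 [ha]
    rw [mul_sum]
    exact sum_congr rfl fun z _ => by ring
  have e3 : ∑ z, (∑ e ∈ low w p, a e * hr e z) ^ 2 = ∑ e ∈ low w p, a e ^ 2 := by
    simp only [sq, sum_mul_sum]
    rw [sum_comm]
    refine sum_congr rfl fun e he => ?_
    rw [sum_comm]
    have e4 : ∀ e', ∑ z, a e * hr e z * (a e' * hr e' z) = if e = e' then a e * a e' else 0 :=
      fun e' => by
        calc _ = a e * a e' * ∑ z, hr e z * hr e' z := by
              rw [mul_sum]
              exact sum_congr rfl fun z _ => by ring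
          _ = _ := by rw [hr_orth]; split_ifs <;> simp
    simp [e4, he]
  simp only [e1, expect_eq_sum_div_card, e2, e3] at h
  have hN : (0 : ℝ) < (univ : Finset (Fin n → Bool)).card := by
    exact_mod_cast card_pos.2 univ_nonempty
  rw [div_pow, div_mul_div_comm, ← sq, ← mul_div_assoc, div_le_div_iff_of_pos_right
    (by positivity)] at h
  have h0 : 0 ≤ ∑ e ∈ low w p, a e ^ 2 := sum_nonneg fun _ _ => sq_nonneg _
  rcases h0.eq_or_lt with h1 | h1
  · rw [← h1, mul_zero]
    exact sum_nonneg fun _ _ => sq_nonneg _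
  · refine le_of_mul_le_mul_right ?_ h1
    nlinarith

lemma low_sound' {t w : ℕ} {p : (Fin n → Bool) → ι → S} (hp : Ind t p)
    (ht : 2 * (w + 1) ≤ t) (b : ι → S → ℝ) (hb : ∀ j s, b j s = 0 ∨ b j s = 1)
    (hM : 12 * ((w : ℝ) + 1) ≤ ∑ j, 𝔼 s, b j s) (ψ : (Fin n → Bool) → ℂ)
    (hψ : ∀ z, ψ z ≠ 0 → ∀ j, b j (p z j) = 0) :
    3 * ∑ e ∈ low w p, ‖∑ z, Hn n e z * ψ z‖ ^ 2 ≤ ∑ z, ‖ψ z‖ ^ 2 := by
  have h1 := low_sound hp ht b hb hM (fun z => (ψ z).re) fun z hz =>
    hψ z fun h => hz (by rw [h]; rfl)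
  have h2 := low_sound hp ht b hb hM (fun z => (ψ z).im) fun z hz =>
    hψ z fun h => hz (by rw [h]; rfl)
  simp only [Complex.sq_norm, Complex.normSq_apply, ← sq, sum_add_distrib, ← hr_coe,
    Complex.re_sum, Complex.im_sum, Complex.re_ofReal_mul, Complex.im_ofReal_mul]
  linarith

lemma low_complete (π : ι → (Fin n → ZMod 2) →+ S) {w : ℕ} {Φ : (ι → S) → ℝ}
    (hΦ : Φ ∈ Deg ι S w) {X : Finset (Fin n → Bool)} (hX : X.Nonempty)
    (h1 : ∀ z ∈ X, Φ (fun i => π i (toZ z)) = 1)
    (h2 : 2 / 3 * ∑ z : Fin n → Bool, Φ (fun i => π i (toZ z)) ^ 2 ≤ X.card) :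
    2 / 3 ≤ ∑ e ∈ low w fun z i => π i (toZ z), ‖∑ z, Hn n e z * subsetState X z‖ ^ 2 := by
  have hc : (0 : ℝ) < X.card := by exact_mod_cast hX.card_pos
  set χ : (Fin n → Bool) → ℝ := fun z => if z ∈ X then 1 else 0 with hχ
  set φ : (Fin n → Bool) → ℝ := fun z => Φ fun i => π i (toZ z) with hφ
  have e1 : ∀ e, ‖∑ z, Hn n e z * subsetState X z‖ ^ 2 = (∑ z, hr e z * χ z) ^ 2 / X.card := by
    intro e
    have : ∑ z, Hn n e z * subsetState X z = ((∑ z, hr e z * χ z) / √X.card : ℝ) := by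
      rw [sum_div]
      push_cast
      refine sum_congr rfl fun z _ => ?_
      simp only [hr_coe, subsetState, hχ]
      split_ifs <;> simp [div_eq_mul_inv]
    rw [this, Complex.norm_real, Real.norm_eq_abs, sq_abs, div_pow, Real.sq_sqrt hc.le]
  have e2 : ∑ e ∈ low w fun z i => π i (toZ z), (∑ z, hr e z * φ z) * ∑ z, hr e z * χ z =
      X.card := by
    rw [sum_subset (subset_univ _) fun e _ he => by rw [low_orth π he hΦ, zero_mul], parseval]
    simp only [hχ, mul_ite, mul_one, mul_zero, sum_ite_mem, univ_inter]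
    rw [sum_congr rfl h1]
    simp
  have h3 := sum_mul_sq_le_sq_mul_sq (low w fun z i => π i (toZ z)) (fun e => ∑ z, hr e z * φ z)
    fun e => ∑ z, hr e z * χ z
  have h4 : ∑ e ∈ low w fun z i => π i (toZ z), (∑ z, hr e z * φ z) ^ 2 ≤ ∑ z, φ z ^ 2 := by
    simp only [sq]
    rw [← parseval]
    exact sum_le_sum_of_subset_of_nonneg (subset_univ _) fun _ _ _ => mul_self_nonneg _
  simp only [e1]
  rw [← sum_div, le_div_iff₀ hc]
  rw [e2] at h3
  have h5 : 0 ≤ ∑ e ∈ low w fun z i => π i (toZ z), (∑ z, hr e z * χ z) ^ 2 :=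
    sum_nonneg fun _ _ => sq_nonneg _
  have h6 := mul_le_mul_of_nonneg_right h4 h5
  have h7 := mul_le_mul_of_nonneg_right h2 h5
  refine le_of_mul_le_mul_left ?_ hc
  nlinarith

end Pool.Agent.MP_36f78e_lc.H75T
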