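import Mathlib
import Pool.Agent.MP_36f78e_lc.H75T.Bonf
import Pool.Agent.MP_36f78e_lc.H75T.Link

/-!
Local violations and the gap: a set without violation has thin projections or contains a dense
product set.
-/

set_option linter.unusedSectionVars false

namespace Pool.Agent.MP_36f78e_lc.H75T

open Finset Pool.Agent.MP_36f78e_lc.H24.Cl
open scoped BigOperators

section

variable {Z ι S S' : Type}

/-- All symbols of `z`, except possibly the one at `i`, occur in points of `O`. -/
def Near (p : Z → ι → S) (O : Finset Z) (i : ι) (z : Z) : Prop :=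
  ∀ j, j ≠ i → ∃ x ∈ O, p x j = p z j

/-- Two points outside `O`, near at the same coordinate, with distinct symbols in one block. -/
def Viol (p : Z → ι → S) (blk : S → S') (O : Finset Z) : Prop :=
  ∃ i z z', z ∉ O ∧ z' ∉ O ∧ Near p O i z ∧ Near p O i z' ∧ p z i ≠ p z' i ∧
    blk (p z i) = blk (p z' i)

open Classical in
/-- The indicator of the symbols that do not occur in `O`. -/
noncomputable def out (p : Z → ι → S) (O : Finset Z) (j : ι) (s : S) : ℝ :=
  if ∃ x ∈ O, p x j = s then 0 else 1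

lemma out_cases (p : Z → ι → S) (O : Finset Z) (j : ι) (s : S) :
    out p O j s = 0 ∨ out p O j s = 1 := by
  unfold out
  split_ifs <;> simp

lemma out_eq_zero {p : Z → ι → S} {O : Finset Z} {j : ι} {s : S} :
    out p O j s = 0 ↔ ∃ x ∈ O, p x j = s := by
  unfold out
  split_ifs with h <;> simp [h]

lemma Near.mono {p : Z → ι → S} {O O' : Finset Z} (h : O ⊆ O') {i : ι} {z : Z}
    (hz : Near p O i z) : Near p O' i z := fun j hj =>
  (hz j hj).imp fun _ hx => ⟨h hx.1, hx.2⟩

variable [Fintype Z] [Fintype ι] [DecidableEq ι] [Fintype S] [Nonempty S] [Fintype S']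

lemma exists_near {t μ : ℕ} {p : Z → ι → S} (hp : Ind t p) (ht : 30 * μ + 4 ≤ t) {O : Finset Z}
    (hO : O.Nonempty) (hM : ∑ j, 𝔼 s, out p O j s ≤ μ) (i : ι) (y : S) :
    ∃ z, Near p O i z ∧ p z i = y := by
  classical
  obtain ⟨x0, hx0⟩ := hO
  have h0 : ∀ j, 0 ≤ 𝔼 s, out p O j s := fun j => expect_nonneg fun s _ => by
    rcases out_cases p O j s with h | h <;> simp [h]
  set J0 : Finset ι := univ.filter fun j => 1 / 2 < 𝔼 s, out p O j s with hJ0
  have hJ : J0.card ≤ 2 * μ := by
    have h1 := card_nsmul_le_sum J0 (fun j => 𝔼 s, out p O j s) (1 / 2)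
      fun j hj => (mem_filter.1 hj).2.le
    have h2 := (sum_le_sum_of_subset_of_nonneg (subset_univ J0) fun j _ _ => h0 j).trans hM
    rw [nsmul_eq_mul] at h1
    exact_mod_cast (by linarith : (J0.card : ℝ) ≤ 2 * μ)
  set y' : ι → S := Function.update (p x0) i y with hy'
  set g : ι → S → ℝ := fun j s =>
    if j ∈ insert i J0 then (if s = y' j then Fintype.card S else 0) else 1 with hg
  set b : ι → S → ℝ := fun j s => if j = i then 0 else out p O j s with hb
  have hN : (Fintype.card S : ℝ) ≠ 0 := by exact_mod_cast Fintype.card_ne_zero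
  have hβ : ∀ j, 𝔼 s, g j s * b j s = if j ∈ insert i J0 then 0 else 𝔼 s, out p O j s := by
    intro j
    split_ifs with h
    · refine expect_eq_zero fun s _ => ?_
      simp only [hg, hb, if_pos h]
      split_ifs with h1 h2 h2
      · simp
      · rw [h1, hy', Function.update_of_ne h2, out_eq_zero.2 ⟨x0, hx0, rfl⟩, mul_zero]
      · simp
      · simp
    · have h1 : j ≠ i := fun e => h (e ▸ mem_insert_self _ _)
      simp only [hg, hb, if_neg h, if_neg h1, one_mul]
  obtain ⟨Φ, -, -, h1, h2⟩ := bonf (w := 14 * μ + 1) hp (insert i J0)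
    (by have := card_insert_le i J0; omega) g b
    (fun j s => by simp only [hg]; split_ifs <;> positivity)
    (fun j => by
      simp only [hg]
      split_ifs
      · rw [expect_eq_sum_div_card, sum_ite_eq', if_pos (mem_univ _), card_univ, div_self hN]
      · exact expect_const univ_nonempty _)
    (fun j hj s => if_neg hj)
    (fun j s => by
      simp only [hb]
      split_ifs
      · simp
      · exact out_cases _ _ _ _)
    (fun j => by
      rw [hβ]
      split_ifs with h
      · norm_num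
      · exact not_lt.1 fun h1 => h (mem_insert_of_mem (mem_filter.2 ⟨mem_univ _, h1⟩)))
    (by
      have : ∑ j, 𝔼 s, g j s * b j s ≤ ∑ j, 𝔼 s, out p O j s := sum_le_sum fun j _ => by
        rw [hβ]
        split_ifs
        · exact h0 j
        · exact le_rfl
      push_cast
      linarith)
  by_contra hcon
  refine absurd (h2.trans_eq (expect_eq_zero fun z _ => ?_)) (not_le.2 (by linarith))
  split_ifs with h
  · refine prod_eq_zero (mem_univ i) ?_
    simp only [hg, if_pos (mem_insert_self i J0), hy', Function.update_self]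
    refine if_neg fun e => hcon ⟨z, fun j hj => out_eq_zero.1 ?_, e⟩
    simpa only [hb, if_neg hj] using h j
  · rfl

lemma expect_le_of_inj {D : ℕ} (hD : 0 < D) (hS : Fintype.card S' * D ≤ Fintype.card S)
    (blk : S → S') (P : S → Prop) [DecidablePred P]
    (h : ∀ s s', P s → P s' → blk s = blk s' → s = s') :
    𝔼 s, (if P s then 1 else 0 : ℝ) ≤ 1 / D := by
  have h1 : (univ.filter P).card ≤ Fintype.card S' := by
    rw [← card_univ]
    exact card_le_card_of_injOn blk (fun _ _ => mem_univ _) fun s hs s' hs' =>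
      h s s' (mem_filter.1 hs).2 (mem_filter.1 hs').2
  have h2 : (0 : ℝ) < Fintype.card S := by exact_mod_cast Fintype.card_pos
  rw [expect_eq_sum_div_card, sum_boole, card_univ, div_le_div_iff₀ h2 (by exact_mod_cast hD),
    one_mul]
  exact_mod_cast (Nat.mul_le_mul_right D h1).trans hS

end

variable {ι S S' : Type} [Fintype ι] [DecidableEq ι] [Fintype S] [AddCommGroup S] [Fintype S']
  {n : ℕ}

/-- The symbols of a bit string. -/
def sy (π : ι → (Fin n → ZMod 2) →+ S) (z : Fin n → Bool) (i : ι) : S := π i (toZ z)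

/-- The weight of a vector on the Hadamard vectors of low degree. -/
noncomputable def wt (π : ι → (Fin n → ZMod 2) →+ S) (w : ℕ) (ψ : (Fin n → Bool) → ℂ) : ℝ :=
  ∑ e ∈ low w (sy π), ‖∑ z, Hn n e z * ψ z‖ ^ 2

lemma ind_sy (π : ι → (Fin n → ZMod 2) →+ S) {t : ℕ}
    (hs : ∀ T : Finset ι, T.card ≤ t → ∀ y : ι → S, ∃ z, ∀ i ∈ T, π i z = y i) :
    Ind t (sy π) := fun F hF => by
  rw [← ind_of_surj π hs F hF]
  exact Fintype.expect_bijective _ toZ_bij _ _ fun _ => rfl

lemma dense_yes (π : ι → (Fin n → ZMod 2) →+ S) {t w u D : ℕ} (hp : Ind t (sy π))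
    (ht : 2 * w + 1 ≤ t) (hD : 2 ≤ D) (hm : Fintype.card ι ≤ u * D) (hw : 14 * u + 1 ≤ w)
    (P : ι → S → Prop) [∀ j, DecidablePred (P j)]
    (hP : ∀ j, 𝔼 s, (if P j s then 1 else 0 : ℝ) ≤ 1 / D) (X : Finset (Fin n → Bool))
    (hX : ∀ z, z ∈ X ↔ ∀ j, ¬ P j (sy π z j)) :
    X.Nonempty ∧ 2 / 3 ≤ wt π w (subsetState X) := by
  have hD' : (2 : ℝ) ≤ D := by exact_mod_cast hD
  obtain ⟨Φ, h0, h1, h2, h3⟩ := bonf (w := w) hp ∅ (by simpa) (fun _ _ => 1)
    (fun j s => if P j s then 1 else 0) (fun _ _ => zero_le_one)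
    (fun _ => expect_const univ_nonempty _) (fun _ _ _ => rfl)
    (fun j s => by split_ifs <;> simp)
    (fun j => by
      simp only [one_mul]
      exact (hP j).trans (one_div_le_one_div_of_le (by norm_num) hD'))
    (by
      simp only [one_mul]
      have h1 := sum_le_card_nsmul univ _ _ fun j _ => hP j
      have h2 : (Fintype.card ι : ℝ) * (1 / D) ≤ u := by
        rw [mul_one_div, div_le_iff₀ (by linarith)]
        exact_mod_cast hm
      have h3 : (14 * u + 1 : ℝ) ≤ w := by exact_mod_cast hw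
      rw [nsmul_eq_mul, card_univ] at h1
      linarith)
  have e : ∀ z, (∀ j, (if P j (sy π z j) then 1 else 0 : ℝ) = 0) ↔ z ∈ X := fun z => by
    simp [hX]
  simp only [prod_const_one, one_mul, e, expect_eq_sum_div_card, sum_boole, filter_mem_eq_inter,
    univ_inter] at h2 h3
  have hN : (0 : ℝ) < (univ : Finset (Fin n → Bool)).card := by
    exact_mod_cast card_pos.2 univ_nonempty
  have h4 := h3
  rw [← mul_div_assoc, div_le_div_iff_of_pos_right hN] at h4
  have h5 : X.Nonempty := by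
    rw [nonempty_iff_ne_empty]
    rintro rfl
    simp only [card_empty, Nat.cast_zero, zero_div] at h3
    linarith
  exact ⟨h5, low_complete π h0 h5 (fun z hz => h1 _ ((e z).2 hz)) h4⟩

theorem gap_yes [Nonempty ι] (π : ι → (Fin n → ZMod 2) →+ S) {t w u D μ : ℕ} (hp : Ind t (sy π))
    (ht : 30 * μ + 4 ≤ t) (ht' : 2 * w + 1 ≤ t) (hD : 2 ≤ D) (hm : Fintype.card ι ≤ u * D)
    (hw : 14 * u + 1 ≤ w) (blk : S → S') (hS : Fintype.card S' * D ≤ Fintype.card S)
    {O : Finset (Fin n → Bool)} (hO : O.Nonempty) (hM : ∑ j, 𝔼 s, out (sy π) O j s ≤ μ)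
    (hV : ¬ Viol (sy π) blk O) :
    ∃ X ⊆ O, X.Nonempty ∧ 2 / 3 ≤ wt π w (subsetState X) := by
  classical
  let P : ι → S → Prop := fun j s => ∃ z ∉ O, Near (sy π) O j z ∧ sy π z j = s
  refine ⟨univ.filter fun z => ∀ j, ¬ P j (sy π z j), fun z hz => ?_,
    dense_yes π hp ht' hD hm hw P (fun j => expect_le_of_inj (by omega) hS blk _ ?_) _
      fun z => by simp⟩
  · have h1 := (mem_filter.1 hz).2
    by_contra h
    obtain ⟨i⟩ := ‹Nonempty ι›
    refine h1 i ⟨z, h, fun j _ => ?_, rfl⟩
    obtain ⟨z', h2, h3⟩ := exists_near hp ht hO hM j (sy π z j)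
    by_contra h4
    exact h1 j ⟨z', fun h5 => h4 ⟨z', h5, h3⟩, h2, h3⟩
  · rintro _ _ ⟨z, h1, h2, rfl⟩ ⟨z', h3, h4, rfl⟩ h5
    by_contra h6
    exact hV ⟨j, z, z', h1, h3, h2, h4, h6, h5⟩

theorem gap_no (π : ι → (Fin n → ZMod 2) →+ S) {t w : ℕ} (hp : Ind t (sy π))
    (ht : 2 * (w + 1) ≤ t) {O : Finset (Fin n → Bool)}
    (hM : 12 * ((w : ℝ) + 1) ≤ ∑ j, 𝔼 s, out (sy π) O j s) (ψ : (Fin n → Bool) → ℂ) :
    3 * wt π w (fun z => if z ∈ O then ψ z else 0) ≤ ∑ z, ‖ψ z‖ ^ 2 := by
  refine (low_sound' hp ht _ (out_cases _ O) hM _ fun z hz j => out_eq_zero.2 ⟨z, ?_, rfl⟩).trans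
    (sum_le_sum fun z _ => by split_ifs <;> simp)
  by_contra h
  exact hz (if_neg h)

lemma miss_ge {Z : Type} (p : Z → ι → S) (O : Finset Z) (h : 2 * O.card ≤ Fintype.card S) :
    (Fintype.card ι : ℝ) / 2 ≤ ∑ j, 𝔼 s, out p O j s := by
  classical
  have hN : (0 : ℝ) < Fintype.card S := by exact_mod_cast Fintype.card_pos
  have h1 : ∀ j, 1 / 2 ≤ 𝔼 s, out p O j s := fun j => by
    have e : ∀ s, out p O j s = 1 - if s ∈ O.image (fun x => p x j) then 1 else 0 := fun s => by
      unfold out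
      simp only [mem_image]
      split_ifs <;> simp
    have h2 : (2 * (O.image fun x => p x j).card : ℝ) ≤ Fintype.card S := by
      exact_mod_cast (Nat.mul_le_mul_left 2 card_image_le).trans h
    simp only [e, expect_sub_distrib, expect_const univ_nonempty]
    rw [expect_eq_sum_div_card, sum_boole, filter_mem_eq_inter, univ_inter, card_univ,
      le_sub_comm, div_le_iff₀ hN]
    linarith
  have h2 := card_nsmul_le_sum univ _ _ fun j _ => h1 j
  rw [nsmul_eq_mul, card_univ] at h2
  linarith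

end Pool.Agent.MP_36f78e_lc.H75T
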