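import Mathlib
import Pool.Agent.MP_36f78e_lc.H75T.Gap

/-!
The closure under near points, the random product sets, and the sampling argument.
-/

set_option linter.unusedSectionVars false

namespace Pool.Agent.MP_36f78e_lc.H75T

open Finset Pool.Agent.MP_36f78e_lc.H24.Cl
open scoped BigOperators

section Closure

variable {Z ι S : Type} [Fintype Z] [DecidableEq Z] [Fintype ι] [DecidableEq ι] [DecidableEq S]

open Classical in
/-- The least superset that contains all its near points. -/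
noncomputable def cl (p : Z → ι → S) (Δ : Finset Z) : Finset Z :=
  univ.filter fun z => ∀ Y, Δ ⊆ Y → (∀ i x, Near p Y i x → x ∈ Y) → z ∈ Y

lemma mem_cl {p : Z → ι → S} {Δ : Finset Z} {z : Z} :
    z ∈ cl p Δ ↔ ∀ Y, Δ ⊆ Y → (∀ i x, Near p Y i x → x ∈ Y) → z ∈ Y := by
  simp [cl]

lemma subset_cl (p : Z → ι → S) (Δ : Finset Z) : Δ ⊆ cl p Δ :=
  fun _ hz => mem_cl.2 fun _ h _ => h hz

lemma cl_mono (p : Z → ι → S) {Δ Δ' : Finset Z} (h : Δ ⊆ Δ') : cl p Δ ⊆ cl p Δ' :=
  fun _ hz => mem_cl.2 fun Y h1 h2 => mem_cl.1 hz Y (h.trans h1) h2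

lemma cl_closed {p : Z → ι → S} {Δ : Finset Z} {i : ι} {z : Z} (h : Near p (cl p Δ) i z) :
    z ∈ cl p Δ :=
  mem_cl.2 fun Y h1 h2 => h2 i z (h.mono fun _ hx => mem_cl.1 hx Y h1 h2)

/-- The number of pairs of a coordinate and a symbol that occur in `Y`. -/
def gam (p : Z → ι → S) (Y : Finset Z) : ℕ := ∑ i, (Y.image fun z => p z i).card

lemma gam_insert {p : Z → ι → S} {Y : Finset Z} {i : ι} {z : Z} (h : Near p Y i z) :
    gam p (insert z Y) ≤ gam p Y + 1 := by
  have e : (1 : ℕ) = ∑ j, if j = i then 1 else 0 := by simp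
  rw [gam, gam, e, ← sum_add_distrib]
  refine sum_le_sum fun j _ => ?_
  rw [image_insert]
  split_ifs with hj
  · exact card_insert_le _ _
  · rw [insert_eq_of_mem (mem_image.2 (h j hj)), add_zero]

lemma card_cl {p : Z → ι → S} {K a : ℕ} (ha : 2 * a + 2 ≤ Fintype.card ι)
    (hp : ∀ Y : Finset Z, Y.card ≤ K → Fintype.card ι * Y.card ≤ gam p Y + a * Y.card)
    {Δ : Finset Z} (hΔ : 2 * Δ.card + 1 ≤ K) : (cl p Δ).card ≤ 2 * Δ.card := by
  obtain ⟨Y, hY, hmax⟩ := exists_max_image (univ.filter fun Y : Finset Z => Δ ⊆ Y ∧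
    gam p Y + Δ.card ≤ Fintype.card ι * Δ.card + Y.card ∧ Y.card ≤ 2 * Δ.card) card
    ⟨Δ, mem_filter.2 ⟨mem_univ _, Subset.rfl, Nat.add_le_add_right (by
      simpa [gam] using sum_le_card_nsmul univ (fun i => (Δ.image fun z => p z i).card) _
        fun i _ => card_image_le) _, by omega⟩⟩
  obtain ⟨h1, h2, h3⟩ := (mem_filter.1 hY).2
  refine (card_le_card fun z hz => mem_cl.1 hz Y h1 fun i x hx => ?_).trans h3
  by_contra h
  have e := card_insert_of_notMem h
  have h4 := gam_insert hx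
  have h5 := hp (insert x Y) (by omega)
  have h6 : (insert x Y).card ≤ 2 * Δ.card := by
    by_contra h6
    have e2 : (insert x Y).card = 2 * Δ.card + 1 := by omega
    obtain ⟨c, hc⟩ := Nat.exists_eq_add_of_le ha
    rw [e2, hc] at h5
    rw [hc] at h2
    nlinarith [Nat.zero_le (c * Δ.card)]
  have := hmax (insert x Y) (mem_filter.2 ⟨mem_univ _, h1.trans (subset_insert _ _), by omega, h6⟩)
  omega

variable {S' : Type} [Fintype S'] [DecidableEq S'] {D : ℕ}

/-- The points that avoid the excluded symbol of every block. -/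
def rs (p : Z → ι → S) (e : S ≃ S' × Fin D) (ω : ι × S' → Fin D) : Finset Z :=
  univ.filter fun z => ∀ i, ¬ ω (i, (e (p z i)).1) = (e (p z i)).2

lemma excl_inj (e : S ≃ S' × Fin D) (ω : ι × S' → Fin D) (i : ι) (s s' : S)
    (h : ω (i, (e s).1) = (e s).2) (h' : ω (i, (e s').1) = (e s').2) (hs : (e s).1 = (e s').1) :
    s = s' :=
  e.injective (Prod.ext hs (by rw [← h, ← h', hs]))

lemma not_viol (p : Z → ι → S) (e : S ≃ S' × Fin D) (ω : ι × S' → Fin D) (Δ : Finset Z) :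
    ¬ Viol p (fun s => (e s).1) (cl p Δ ∩ rs p e ω) := by
  have key : ∀ i z, z ∉ cl p Δ ∩ rs p e ω → Near p (cl p Δ ∩ rs p e ω) i z →
      ω (i, (e (p z i)).1) = (e (p z i)).2 := fun i z h1 h2 => by
    by_contra h
    refine h1 (mem_inter.2 ⟨cl_closed (h2.mono inter_subset_left),
      mem_filter.2 ⟨mem_univ _, fun j => ?_⟩⟩)
    by_cases hj : j = i
    · rwa [hj]
    · obtain ⟨x, hx, hx'⟩ := h2 j hj
      rw [← hx']
      exact (mem_filter.1 (mem_inter.1 hx).2).2 j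
  rintro ⟨i, z, z', h1, h2, h3, h4, h5, h6⟩
  exact h5 (excl_inj e ω i _ _ (key i z h1 h3) (key i z' h2 h4) h6)

lemma prob_rs [NeZero D] (p : Z → ι → S) (e : S ≃ S' × Fin D) (Y : Finset Z) :
    𝔼 ω, (if Y ⊆ rs p e ω then 1 else 0 : ℝ) ≤ (1 - 1 / D) ^ gam p Y := by
  have hD : (1 : ℝ) ≤ D := by exact_mod_cast Nat.pos_of_ne_zero (NeZero.ne D)
  have h0 : (0 : ℝ) ≤ 1 - 1 / D := by
    rw [sub_nonneg, div_le_one (by linarith)]
    exact hD
  let A : ι × S' → Finset (Fin D) := fun c => univ.filter fun d => ∃ z ∈ Y, e (p z c.1) = (c.2, d)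
  have e1 : ∀ c, 𝔼 d, (if d ∈ A c then 0 else 1 : ℝ) = 1 - (A c).card / D := fun c => by
    have : ∀ d, (if d ∈ A c then 0 else 1 : ℝ) = 1 - if d ∈ A c then 1 else 0 := fun d => by
      split_ifs <;> simp
    simp only [this, expect_sub_distrib, expect_const univ_nonempty]
    rw [expect_eq_sum_div_card, sum_boole, filter_mem_eq_inter, univ_inter, card_univ,
      Fintype.card_fin]
  calc _ ≤ 𝔼 ω : ι × S' → Fin D, ∏ c, (if ω c ∈ A c then 0 else 1 : ℝ) := by
        refine expect_le_expect fun ω _ => ?_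
        split_ifs with h
        · refine (prod_eq_one fun c _ => if_neg fun hc => ?_).ge
          obtain ⟨z, hz, h1⟩ := (mem_filter.1 hc).2
          refine (mem_filter.1 (h hz)).2 c.1 ?_
          rw [h1]
        · exact prod_nonneg fun c _ => by split_ifs <;> norm_num
    _ = ∏ c, (1 - (A c).card / D : ℝ) := by
        rw [expect_prod fun c d => (if d ∈ A c then 0 else 1 : ℝ)]
        simp only [e1]
    _ ≤ ∏ c, (1 - 1 / D : ℝ) ^ (A c).card := by
        refine prod_le_prod (fun c _ => ?_) fun c _ => ?_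
        · rw [← e1]
          exact expect_nonneg fun d _ => by split_ifs <;> norm_num
        · have := one_add_mul_le_pow (a := -(1 / D : ℝ)) (by linarith) (A c).card
          rw [← sub_eq_add_neg] at this
          refine le_of_eq_of_le ?_ this
          ring
    _ ≤ _ := by
        rw [prod_pow_eq_pow_sum]
        refine pow_le_pow_of_le_one h0 (by rw [sub_le_self_iff]; positivity) ?_
        rw [gam, Fintype.sum_prod_type]
        refine sum_le_sum fun i _ => ?_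
        rw [← card_sigma]
        refine card_le_card_of_injOn (fun s => ⟨(e s).1, (e s).2⟩) (fun s hs => ?_)
          fun s _ s' _ h => e.injective (Prod.ext (Sigma.mk.inj_iff.1 h).1
            (eq_of_heq (Sigma.mk.inj_iff.1 h).2))
        obtain ⟨z, hz, rfl⟩ := mem_image.1 hs
        exact mem_sigma.2 ⟨mem_univ _, mem_filter.2 ⟨mem_univ _, z, hz, rfl⟩⟩

end Closure

section Sampler

variable {Z Ω : Type} [Fintype Z] [DecidableEq Z] [Fintype Ω] [Nonempty Ω]

lemma expect_succ_cl {μ : Finset Z → Z → ℝ} (h0 : ∀ Δ z, 0 ≤ μ Δ z) (h1 : ∀ Δ, ∑ z, μ Δ z ≤ 1)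
    (c : Finset Z → Finset Z) (hc : ∀ Δ z, c Δ ⊆ c (insert z Δ))
    (O : Ω → Finset Z) {ρ : ℝ} (hρ : 0 ≤ ρ) {v : ℕ}
    (hcv : ∀ Δ : Finset Z, Δ.card ≤ v → (c Δ).card ≤ 2 * Δ.card)
    (h : ∀ Y : Finset Z, Y.card ≤ v → 𝔼 ω, (if Y ⊆ O ω then 1 else 0 : ℝ) ≤ ρ ^ Y.card)
    (t : ℕ) (Δ Y : Finset Z) (ht : Δ.card + t ≤ v) :
    𝔼 ω, (if c Δ ∩ O ω = Y then succ (fun Δ => μ (c Δ ∩ O ω)) (O ω) t Δ else 0) ≤
      (4 * ρ) ^ (Δ.card + t) / 2 ^ (c Δ).card := by
  induction t generalizing Δ Y with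
  | zero =>
    calc _ ≤ 𝔼 ω, (if Δ ⊆ O ω then 1 else 0 : ℝ) := by
          refine expect_le_expect fun ω _ => ?_
          unfold succ
          split_ifs <;> norm_num
      _ ≤ ρ ^ Δ.card := h Δ ht
      _ ≤ _ := by
          rw [le_div_iff₀ (by positivity), add_zero, mul_pow, mul_comm,
            show (4 : ℝ) = 2 ^ 2 by norm_num, ← pow_mul]
          exact mul_le_mul_of_nonneg_right (pow_le_pow_right₀ (by norm_num) (hcv Δ ht))
            (pow_nonneg hρ _)
  | succ t ih =>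
    have hn : ∀ ω t Δ, 0 ≤ succ (fun Δ => μ (c Δ ∩ O ω)) (O ω) t Δ := fun ω t Δ =>
      succ_nonneg (fun _ _ => h0 _ _) _ _ _
    calc _ ≤ 𝔼 ω, ∑ z ∈ Δᶜ, μ Y z * ∑ R ∈ (c (insert z Δ) \ c Δ).powerset,
          (if c (insert z Δ) ∩ O ω = Y ∪ R then
            succ (fun Δ => μ (c Δ ∩ O ω)) (O ω) t (insert z Δ) else 0) := by
          refine expect_le_expect fun ω _ => ?_
          split_ifs with hY
          · rw [succ, hY]
            refine sum_le_sum fun z _ => mul_le_mul_of_nonneg_left ?_ (h0 _ _)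
            refine le_of_eq_of_le ?_ (single_le_sum (a := (c (insert z Δ) \ c Δ) ∩ O ω)
              (fun R _ => by split_ifs; exacts [hn _ _ _, le_rfl])
              (mem_powerset.2 inter_subset_left))
            rw [if_pos]
            rw [← hY, ← union_inter_distrib_right, union_sdiff_of_subset (hc Δ z)]
          · exact sum_nonneg fun z _ => mul_nonneg (h0 _ _) (sum_nonneg fun R _ => by
              split_ifs; exacts [hn _ _ _, le_rfl])
      _ ≤ ∑ z ∈ Δᶜ, μ Y z * ((4 * ρ) ^ (Δ.card + (t + 1)) / 2 ^ (c Δ).card) := by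
          rw [expect_sum_comm]
          refine sum_le_sum fun z hz => ?_
          rw [← mul_expect, expect_sum_comm]
          refine mul_le_mul_of_nonneg_left ?_ (h0 _ _)
          have e : (insert z Δ).card = Δ.card + 1 := card_insert_of_notMem (mem_compl.1 hz)
          refine (sum_le_card_nsmul _ _ _ fun R _ => ih (insert z Δ) (Y ∪ R) (by omega)).trans
            (le_of_eq ?_)
          rw [card_powerset, nsmul_eq_mul, e, add_assoc, add_comm 1 t,
            ← card_sdiff_add_card_eq_card (hc Δ z), pow_add (2 : ℝ)]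
          push_cast
          field_simp
      _ ≤ 1 * ((4 * ρ) ^ (Δ.card + (t + 1)) / 2 ^ (c Δ).card) := by
          rw [← sum_mul]
          exact mul_le_mul_of_nonneg_right ((sum_le_sum_of_subset_of_nonneg (subset_univ _)
            fun z _ _ => h0 _ _).trans (h1 Y)) (by positivity)
      _ = _ := one_mul _

theorem sampler_cl {W : Type} [Fintype W] (μ : W → Finset Z → Z → ℝ) (h0 : ∀ w Δ z, 0 ≤ μ w Δ z)
    (h1 : ∀ w Δ, ∑ z, μ w Δ z ≤ 1) (c : Finset Z → Finset Z) (hc : ∀ Δ z, c Δ ⊆ c (insert z Δ))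
    (O : Ω → Finset Z) {ρ η : ℝ} (hρ : 0 ≤ ρ) (hη : 0 ≤ η) {v : ℕ}
    (hcv : ∀ Δ : Finset Z, Δ.card ≤ v → (c Δ).card ≤ 2 * Δ.card)
    (hup : ∀ Y : Finset Z, Y.card ≤ v → 𝔼 ω, (if Y ⊆ O ω then 1 else 0 : ℝ) ≤ ρ ^ Y.card)
    (hlo : ∀ ω, ∃ w, ∀ Δ ⊆ O ω, Δ.card ≤ v → η ≤ ∑ z ∈ O ω \ Δ, μ w (c Δ ∩ O ω) z) :
    η ^ v ≤ Fintype.card W * (4 * ρ) ^ v := by
  have hc0 : c ∅ = ∅ := card_eq_zero.1 (by simpa using hcv ∅ (by simp))
  calc _ = 𝔼 _ω : Ω, η ^ v := (expect_const univ_nonempty _).symm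
    _ ≤ 𝔼 ω, ∑ w, succ (fun Δ => μ w (c Δ ∩ O ω)) (O ω) v ∅ := by
        refine expect_le_expect fun ω _ => ?_
        obtain ⟨w, hw⟩ := hlo ω
        exact (succ_ge (μ := fun Δ => μ w (c Δ ∩ O ω)) (fun _ _ => h0 _ _ _) hη hw v ∅
          (empty_subset _) (by simp)).trans
          (single_le_sum (f := fun w => succ (fun Δ => μ w (c Δ ∩ O ω)) (O ω) v ∅)
            (fun w _ => succ_nonneg (fun _ _ => h0 _ _ _) _ _ _) (mem_univ w))
    _ = ∑ w, 𝔼 ω, succ (fun Δ => μ w (c Δ ∩ O ω)) (O ω) v ∅ := expect_sum_comm _ _ _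
    _ ≤ _ := by
        refine (sum_le_card_nsmul _ _ ((4 * ρ) ^ v) fun w _ => ?_).trans (by simp)
        simpa [hc0] using expect_succ_cl (h0 w) (h1 w) c hc O hρ hcv hup v ∅ ∅ (by simp)

end Sampler

end Pool.Agent.MP_36f78e_lc.H75T
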