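import Mathlib
import Pool.Agent.MP_36f78e_lc.H24.Cl.Defs

/-!
A verifier that keeps its gap for every oracle.
-/

namespace Pool.Agent.MP_36f78e_lc.H75T

open Pool.Agent.MP_36f78e_lc.H24.Cl Matrix

/-- The join of two oracles: the first letter selects the oracle. -/
def join (B A : List Bool → Bool) : List Bool → Bool
  | [] => false
  | true :: s => B s
  | false :: s => A s

/-- The wire that holds bit `i` of the witness register `j`. -/
def reg {n : ℕ} (j : Fin (n + 1)) (i : Fin n) : Fin ((n + 1) * n) ⊕ Fin (n + 1 + 2) :=
  Sum.inl (finProdFinEquiv (j, i))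

/-- The ancilla that receives the answer for the register `j`. -/
def ans {n : ℕ} (j : Fin (n + 1)) : Fin ((n + 1) * n) ⊕ Fin (n + 1 + 2) :=
  Sum.inr (Fin.castAdd 2 j)

/-- The two last ancillas: the selector `0` and the output `1`. -/
def aux (n : ℕ) (k : Fin 2) : Fin ((n + 1) * n) ⊕ Fin (n + 1 + 2) :=
  Sum.inr (Fin.natAdd (n + 1) k)

/-- One-qubit gates: Hadamard on the first `n` witness qubits, which form the register `0`, the
bit flip on the selector, the identity on the other wires. -/
noncomputable def one (n : ℕ) : Fin ((n + 1) * n) ⊕ Fin (n + 1 + 2) → Bool → Bool → ℂ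
  | Sum.inl k, a, b =>
    if (k : ℕ) < n then (if a = true ∧ b = true then -1 else 1) / (√2 : ℝ)
    else if a = b then 1 else 0
  | Sum.inr k, a, b =>
    if (k : ℕ) = n + 1 then (if a = b then 0 else 1) else if a = b then 1 else 0

/-- The tensor product of the one-qubit gates. -/
noncomputable def layer (n : ℕ) : Matrix (Fin ((n + 1) * n) ⊕ Fin (n + 1 + 2) → Bool)
    (Fin ((n + 1) * n) ⊕ Fin (n + 1 + 2) → Bool) ℂ :=
  fun x y => ∏ u, one n u (x u) (y u)

/-- The verifier.  The witness consists of `n + 1` registers of `n` qubits.  Query the oracle on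
the selector followed by each register, apply the layer of one-qubit gates, query the oracle on the
selector followed by all witness wires and all answers, accept when this last answer is one. -/
noncomputable def total (n : ℕ) : Verifier where
  p := (n + 1) * n
  q := n + 1 + 2
  gates := (List.ofFn fun j => Sum.inr (aux n 0 :: List.ofFn (reg j), ans j)) ++
    [Sum.inl (layer n), Sum.inr (aux n 0 :: (List.ofFn Sum.inl ++ List.ofFn ans), aux n 1)]
  acc := Finset.univ.filter fun z => z (aux n 1) = true

/-- The verifier `V`, with the oracle `C` and classical witnesses, decides whether `P` holds: if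
`P` holds some basis state is accepted, otherwise all basis states are rejected. -/
def Decides (V : Verifier) (C : List Bool → Bool) (P : Prop) : Prop :=
  (P → ∃ y, 2 / 3 ≤ V.accProb C (Pi.single y 1)) ∧ (¬ P → ∀ y, V.accProb C (Pi.single y 1) ≤ 1 / 3)

end Pool.Agent.MP_36f78e_lc.H75T
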