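import Mathlib
import Pool.Agent.MP_36f78e_lc.H24.Cl.Test
import Pool.Agent.MP_36f78e_lc.H75T.Defs

/-!
The acceptance probability of the verifier.
-/

set_option linter.unusedSectionVars false

namespace Pool.Agent.MP_36f78e_lc.H75T

open Finset Matrix Pool.Agent.MP_36f78e_lc.H24.Cl

variable {n : ℕ}

lemma one_orth (u : Fin ((n + 1) * n) ⊕ Fin (n + 1 + 2)) (a a' : Bool) :
    ∑ b, one n u a b * star (one n u a' b) = if a = a' then 1 else 0 := by
  have h := sqrt_two_sq
  have h' := sqrt_two_ne
  rcases u with k | k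
  · by_cases hk : (k : ℕ) < n
    · simp only [one, if_pos hk, star_div₀, Complex.star_def, Complex.conj_ofReal,
        div_mul_div_comm, h]
      cases a <;> cases a' <;> simp <;> norm_num
    · simp only [one, if_neg hk]
      cases a <;> cases a' <;> simp
  · by_cases hk : (k : ℕ) = n + 1
    · simp only [one, if_pos hk]
      cases a <;> cases a' <;> simp
    · simp only [one, if_neg hk]
      cases a <;> cases a' <;> simp

lemma layer_unitary :
    layer n ∈ unitaryGroup (Fin ((n + 1) * n) ⊕ Fin (n + 1 + 2) → Bool) ℂ := by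
  rw [mem_unitaryGroup_iff]
  ext x y
  rw [mul_apply, one_apply]
  simp only [star_apply, layer, star_prod, ← prod_mul_distrib]
  rw [← Fintype.piFinset_univ, ← prod_univ_sum (fun _ => (univ : Finset Bool))
    fun u b => one n u (x u) b * star (one n u (y u) b)]
  simp only [one_orth]
  rw [prod_ite_zero]
  simp [funext_iff]

lemma ans_ne_aux (j : Fin (n + 1)) (k : Fin 2) : ans j ≠ aux n k := fun h => by
  have := congrArg Fin.val (Sum.inr.inj h)
  simp only [Fin.val_castAdd, Fin.val_natAdd] at this
  omega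

lemma aux_ne : aux n 1 ≠ aux n 0 := fun h => by
  have := congrArg Fin.val (Sum.inr.inj h)
  simp at this

lemma mem_total (g : Gate (Fin ((n + 1) * n) ⊕ Fin (n + 1 + 2))) (h : g ∈ (total n).gates) :
    (∃ j, Sum.inr (aux n 0 :: List.ofFn (reg j), ans j) = g) ∨ g = Sum.inl (layer n) ∨
      g = Sum.inr (aux n 0 :: (List.ofFn Sum.inl ++ List.ofFn ans), aux n 1) := by
  have h' : g ∈ (List.ofFn fun j => Sum.inr (aux n 0 :: List.ofFn (reg j), ans j)) ++
    [Sum.inl (layer n), Sum.inr (aux n 0 :: (List.ofFn Sum.inl ++ List.ofFn ans), aux n 1)] := h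
  simpa only [List.mem_append, List.mem_ofFn, List.mem_cons, List.not_mem_nil, or_false] using h'

lemma total_valid (n : ℕ) : (total n).Valid := by
  constructor
  · intro U hU
    rcases mem_total _ hU with ⟨j, h⟩ | h | h
    · cases h
    · cases h; exact layer_unitary
    · cases h
  · intro l t h
    rcases mem_total _ h with ⟨j, h⟩ | h | h
    · cases h
      change ans j ∉ aux n 0 :: List.ofFn (reg j)
      simp only [List.mem_cons, List.mem_ofFn, not_or, not_exists]
      exact ⟨ans_ne_aux _ _, fun i h => by cases h⟩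
    · cases h
    · cases h
      change aux n 1 ∉ aux n 0 :: (List.ofFn Sum.inl ++ List.ofFn ans)
      simp only [List.mem_cons, List.mem_append, List.mem_ofFn, not_or, not_exists]
      exact ⟨aux_ne, fun i h => (by cases h), fun j => ans_ne_aux _ _⟩

/-- The witness bits given by the registers. -/
def flat (Y : Fin (n + 1) → Fin n → Bool) (k : Fin ((n + 1) * n)) : Bool :=
  Y (finProdFinEquiv.symm k).1 (finProdFinEquiv.symm k).2

lemma flat_bij : Function.Bijective (flat (n := n)) := by
  rw [Fintype.bijective_iff_injective_and_card]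
  refine ⟨fun Y Y' h => funext fun j => funext fun i => ?_, by simp [← pow_mul, mul_comm]⟩
  simpa [flat] using congrFun h (finProdFinEquiv (j, i))

lemma sum_flat {M : Type} [AddCommMonoid M] (f : (Fin ((n + 1) * n) → Bool) → M) :
    ∑ x, f x = ∑ ys : Fin n → Fin n → Bool, ∑ z, f (flat (Fin.cons z ys)) := by
  rw [← flat_bij.sum_comp, ← (Fin.consEquiv fun _ => Fin n → Bool).sum_comp,
    Fintype.sum_prod_type, sum_comm]
  rfl

/-- A basis vector of the whole circuit. -/
def pt (x : Fin ((n + 1) * n) → Bool) (a : Fin (n + 1) → Bool) (c o : Bool) :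
    Fin ((n + 1) * n) ⊕ Fin (n + 1 + 2) → Bool :=
  Sum.elim x (Fin.append a ![c, o])

lemma sum_pt {M : Type} [AddCommMonoid M]
    (f : (Fin ((n + 1) * n) ⊕ Fin (n + 1 + 2) → Bool) → M) :
    ∑ y, f y = ∑ x, ∑ a, ∑ c, ∑ o, f (pt x a c o) := by
  rw [sum_split]
  refine sum_congr rfl fun x _ => ?_
  rw [← (Fin.appendEquiv (n + 1) 2).sum_comp, Fintype.sum_prod_type]
  refine sum_congr rfl fun a _ => ?_
  rw [← (finTwoArrowEquiv Bool).symm.sum_comp, Fintype.sum_prod_type]
  rfl

variable (x : Fin ((n + 1) * n) → Bool) (a : Fin (n + 1) → Bool) (c o : Bool)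

lemma pt_ans (j : Fin (n + 1)) : pt x a c o (ans j) = a j := by simp [pt, ans]

lemma pt_zero : pt x a c o (aux n 0) = c := by simp [pt, aux]

lemma pt_one : pt x a c o (aux n 1) = o := by simp [pt, aux]

lemma pt_ext {y y' : Fin ((n + 1) * n) ⊕ Fin (n + 1 + 2) → Bool}
    (h1 : ∀ k, y (Sum.inl k) = y' (Sum.inl k)) (h2 : ∀ j, y (ans j) = y' (ans j))
    (h3 : y (aux n 0) = y' (aux n 0)) (h4 : y (aux n 1) = y' (aux n 1)) : y = y' := by
  funext u
  rcases u with k | k
  · exact h1 k
  · refine Fin.addCases (motive := fun k => y (Sum.inr k) = y' (Sum.inr k)) h2 (fun k => ?_) k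
    fin_cases k
    exacts [h3, h4]

lemma update_ans (j : Fin (n + 1)) (b : Bool) :
    Function.update (pt x a c o) (ans j) b = pt x (Function.update a j b) c o := by
  refine pt_ext (fun k => Function.update_of_ne (by simp [ans]) _ _) (fun i => ?_) ?_ ?_
  · by_cases h : i = j
    · subst h; simp [pt_ans]
    · have hne : ans i ≠ ans j := fun e => h (Fin.castAdd_injective _ _ (Sum.inr.inj e))
      rw [Function.update_of_ne hne, pt_ans, pt_ans, Function.update_of_ne h]
  · rw [Function.update_of_ne (ans_ne_aux _ _).symm, pt_zero, pt_zero]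
  · rw [Function.update_of_ne (ans_ne_aux _ _).symm, pt_one, pt_one]

lemma update_out (b : Bool) : Function.update (pt x a c o) (aux n 1) b = pt x a c b := by
  refine pt_ext (fun k => Function.update_of_ne (by simp [aux]) _ _) (fun i => ?_) ?_ ?_
  · rw [Function.update_of_ne (ans_ne_aux _ _), pt_ans, pt_ans]
  · rw [Function.update_of_ne aux_ne.symm, pt_zero, pt_zero]
  · rw [Function.update_self, pt_one]

lemma init_pt (w : (Fin ((n + 1) * n) → Bool) → ℂ) :
    init (n + 1 + 2) w (pt x a c o) =
      if (∀ j, a j = false) ∧ c = false ∧ o = false then w x else 0 := by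
  refine if_congr ?_ rfl rfl
  simp [pt, Fin.forall_fin_add, Fin.forall_fin_two]

lemma run_calls (C : List Bool → Bool) (Y : Fin (n + 1) → Fin n → Bool) (js : List (Fin (n + 1)))
    (hj : js.Nodup) (v : (Fin ((n + 1) * n) ⊕ Fin (n + 1 + 2) → Bool) → ℂ) :
    run C (js.map fun j => Sum.inr (aux n 0 :: List.ofFn (reg j), ans j)) v (pt (flat Y) a c o) =
      v (pt (flat Y) (fun j => if j ∈ js then xor (a j) (C (c :: List.ofFn (Y j))) else a j)
        c o) := by
  induction js generalizing v with
  | nil => simp [run]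
  | cons j js ih =>
    rw [List.nodup_cons] at hj
    rw [List.map_cons, run_cons, ih hj.2]
    simp only [act, List.map_cons, pt_zero, pt_ans, if_neg hj.1, update_ans, List.map_ofFn]
    congr 2
    funext i
    have e : ∀ a', (pt (flat Y) a' c o ∘ reg j) = Y j := fun a' => by
      funext k
      simp [pt, reg, flat]
    by_cases h : i = j
    · subst h
      simp [e]
    · simp [h]

lemma layer_pt (e z : Fin n → Bool) (ys ys' : Fin n → Fin n → Bool) (a' : Fin (n + 1) → Bool)
    (c' o' : Bool) :
    layer n (pt (flat (Fin.cons e ys)) a c o) (pt (flat (Fin.cons z ys')) a' c' o') =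
      if ys = ys' ∧ a = a' ∧ (!c) = c' ∧ o = o' then Hn n e z else 0 := by
  have e1 : ∀ (i k : Fin n), ¬ ((finProdFinEquiv (i.succ, k) : Fin ((n + 1) * n)) : ℕ) < n :=
    fun i k => by
      simp only [finProdFinEquiv_apply_val, Fin.val_succ, mul_add, mul_one]
      omega
  have e2 : ∀ k : Fin n, ((finProdFinEquiv ((0 : Fin (n + 1)), k) : Fin ((n + 1) * n)) : ℕ) < n :=
    fun k => by simp [finProdFinEquiv_apply_val]
  have e3 : ∀ j : Fin (n + 1), ¬ ((Fin.castAdd 2 j : Fin (n + 1 + 2)) : ℕ) = n + 1 := fun j => by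
    have := j.2
    simp only [Fin.val_castAdd]
    omega
  rw [layer, Fintype.prod_sum_type, ← finProdFinEquiv.prod_comp, Fintype.prod_prod_type,
    Fin.prod_univ_succ, Fin.prod_univ_add, Fin.prod_univ_two]
  simp only [one, e1, e2, e3, pt, flat, Sum.elim_inl, Sum.elim_inr, Equiv.symm_apply_apply,
    Fin.cons_zero, Fin.cons_succ, Fin.append_left, Fin.append_right, if_true, if_false,
    Fin.val_natAdd, Fin.val_zero, Fin.val_one, add_zero, cons_val_zero, cons_val_one,
    prod_boole, mem_univ, true_imp_iff, Nat.succ_ne_self]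
  simp only [← funext_iff]
  by_cases h1 : ys = ys' <;> by_cases h2 : a = a' <;> cases c <;> cases c' <;>
    by_cases h3 : o = o' <;> simp [h1, h2, h3, Hn]

theorem total_acc (B A : List Bool → Bool) (w : (Fin ((n + 1) * n) → Bool) → ℂ) :
    (total n).accProb (join B A) w = ∑ ys : Fin n → Fin n → Bool, ∑ e, ∑ b,
      if B (List.ofFn (flat (Fin.cons e ys)) ++
          List.ofFn (Fin.cons b fun j => A (List.ofFn (ys j)) : Fin (n + 1) → Bool)) = true then
        ‖∑ z, Hn n e z * if A (List.ofFn z) = b then w (flat (Fin.cons z ys)) else 0‖ ^ 2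
      else 0 := by
  rw [accProb_eq]
  change ∑ y ∈ univ.filter (fun y : Fin ((n + 1) * n) ⊕ Fin (n + 1 + 2) → Bool =>
    y (aux n 1) = true), ‖run (join B A)
      ((List.ofFn fun j => Sum.inr (aux n 0 :: List.ofFn (reg j), ans j)) ++
      [Sum.inl (layer n), Sum.inr (aux n 0 :: (List.ofFn Sum.inl ++ List.ofFn ans), aux n 1)])
      (init (n + 1 + 2) w) y‖ ^ 2 = _
  rw [run, List.foldl_append, ← run, ← run]
  generalize hv : run (join B A) (List.ofFn fun j => Sum.inr (aux n 0 :: List.ofFn (reg j), ans j))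
    (init (n + 1 + 2) w) = v
  rw [List.ofFn_eq_map] at hv
  have h1 : ∀ Y a c o, v (pt (flat Y) a c o) =
      if (a = fun j => A (List.ofFn (Y j))) ∧ c = false ∧ o = false then w (flat Y) else 0 := by
    intro Y a c o
    rw [← hv, run_calls _ _ _ _ _ _ (List.nodup_finRange _), init_pt]
    refine if_congr (and_congr_left fun h => ?_) rfl rfl
    simp [h.1, join, funext_iff]
  have h2 : ∀ e ys a c o, (layer n *ᵥ v) (pt (flat (Fin.cons e ys)) a c o) =
      if Fin.tail a = (fun j => A (List.ofFn (ys j))) ∧ c = true ∧ o = false then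
        ∑ z, Hn n e z * if A (List.ofFn z) = a 0 then w (flat (Fin.cons z ys)) else 0
      else 0 := by
    intro e ys a c o
    rw [mulVec, dotProduct, sum_pt, sum_flat]
    simp only [layer_pt, ite_and, ite_mul, zero_mul, sum_ite_irrel, sum_const_zero, sum_ite_eq,
      mem_univ, if_true, h1]
    have e1 : ∀ z : Fin n → Bool, (a = fun j => A (List.ofFn
        ((Fin.cons z ys : Fin (n + 1) → Fin n → Bool) j))) ↔
        Fin.tail a = (fun j => A (List.ofFn (ys j))) ∧ A (List.ofFn z) = a 0 := fun z => by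
      simp only [funext_iff, Fin.forall_fin_succ, Fin.cons_zero, Fin.cons_succ, Fin.tail]
      rw [and_comm, eq_comm (a := a 0)]
    simp only [e1]
    by_cases h : Fin.tail a = fun j => A (List.ofFn (ys j))
    · cases c <;> cases o <;> simp [h]
    · simp [h]
  rw [sum_filter, sum_pt, sum_flat]
  refine sum_congr rfl fun ys _ => sum_congr rfl fun e _ => ?_
  rw [← (Fin.consEquiv fun _ => Bool).sum_comp, Fintype.sum_prod_type]
  refine sum_congr rfl fun b _ => ?_
  have e1 : ∀ (x : Fin ((n + 1) * n) → Bool) a c o,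
      List.map (pt x a c o) (List.ofFn Sum.inl ++ List.ofFn ans) =
      List.ofFn x ++ List.ofFn a := fun x a c o => by
    rw [List.map_append, List.map_ofFn, List.map_ofFn]
    congr 2
    exact funext (pt_ans x a c o)
  have e2 : ∀ a : Fin n → Bool, (Fin.consEquiv fun _ => Bool) (b, a) =
      (Fin.cons b a : Fin (n + 1) → Bool) := fun _ => rfl
  simp only [run, List.foldl_cons, List.foldl_nil, act, pt_one, List.map_cons, pt_zero, e1, e2,
    update_out, h2, Fin.tail_cons, Fin.cons_zero, Fintype.sum_bool]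
  rw [sum_eq_single (fun j => A (List.ofFn (ys j))) (fun a _ ha => by simp [ha]) (by simp)]
  simp only [join]
  generalize B _ = β
  cases β <;> simp

end Pool.Agent.MP_36f78e_lc.H75T
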