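import Mathlib
import Pool.Agent.MP_36f78e_lc.H24.Cl.Main
import Pool.Agent.MP_36f78e_lc.H75T.Circ
import Pool.Agent.MP_36f78e_lc.H75T.Code
import Pool.Agent.MP_36f78e_lc.H75T.Samp

/-!
The gap of the verifier for every oracle, and the lower bound for classical witnesses.
-/

set_option linter.unusedSectionVars false

namespace Pool.Agent.MP_36f78e_lc.H75T

open Finset Pool.Agent.MP_36f78e_lc.H24.Cl
open scoped BigOperators

section Cert

variable {Z ι S S' J : Type}

/-- The registers `ys` with the answers `as` exhibit a violation. -/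
def Cert (p : Z → ι → S) (blk : S → S') (ys : J → Z) (as : J → Bool) : Prop :=
  ∃ i a a', as a = false ∧ as a' = false ∧
    (∀ j, j ≠ i → ∃ c, as c = true ∧ p (ys c) j = p (ys a) j) ∧
    (∀ j, j ≠ i → ∃ c, as c = true ∧ p (ys c) j = p (ys a') j) ∧
    p (ys a) i ≠ p (ys a') i ∧ blk (p (ys a) i) = blk (p (ys a') i)

variable {p : Z → ι → S} {blk : S → S'} {O : Finset Z} {f : Z → Bool}

lemma viol_of_cert (hf : ∀ z, z ∈ O ↔ f z = true) {ys : J → Z}
    (h : Cert p blk ys fun j => f (ys j)) : Viol p blk O := by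
  obtain ⟨i, a, a', h1, h2, h3, h4, h5⟩ := h
  refine ⟨i, ys a, ys a', by simp [hf, h1], by simp [hf, h2], fun j hj => ?_, fun j hj => ?_, h5⟩
  · obtain ⟨c, hc⟩ := h3 j hj
    exact ⟨_, (hf _).2 hc.1, hc.2⟩
  · obtain ⟨c, hc⟩ := h4 j hj
    exact ⟨_, (hf _).2 hc.1, hc.2⟩

lemma cert_of_viol [Fintype ι] [Fintype J] (hJ : 2 * Fintype.card ι ≤ Fintype.card J)
    (hf : ∀ z, z ∈ O ↔ f z = true) (h : Viol p blk O) :
    ∃ ys : J → Z, Cert p blk ys fun j => f (ys j) := by
  classical
  obtain ⟨i, z, z', h1, h2, h3, h4, h5⟩ := h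
  obtain ⟨φ⟩ : Nonempty (ι ⊕ ι ↪ J) :=
    Function.Embedding.nonempty_of_card_le (by rw [Fintype.card_sum]; omega)
  have : Nonempty Z := ⟨z⟩
  choose! x hx using h3
  choose! x' hx' using h4
  obtain ⟨ys, e⟩ : ∃ ys : J → Z, ∀ u, ys (φ u) =
      Sum.elim (Function.update x i z) (Function.update x' i z') u :=
    ⟨Function.extend φ _ fun _ => z, φ.injective.extend_apply _ _⟩
  refine ⟨ys, i, φ (Sum.inl i), φ (Sum.inr i), ?_, ?_,
    fun j hj => ⟨φ (Sum.inl j), ?_⟩, fun j hj => ⟨φ (Sum.inr j), ?_⟩, ?_⟩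
  · simpa [e, hf] using h1
  · simpa [e, hf] using h2
  · simpa [e, hj, hf] using hx j hj
  · simpa [e, hj, hf] using hx' j hj
  · simpa [e] using h5

end Cert

variable {n : ℕ} {B A : List Bool → Bool}

/-- Some subset state is accepted. -/
def Pos (B A : List Bool → Bool) (n : ℕ) : Prop :=
  ∃ S : Finset (Fin ((n + 1) * n) → Bool), S.Nonempty ∧
    2 / 3 ≤ (total n).accProb (join B A) (subsetState (p := (n + 1) * n) S)

/-- All states are rejected. -/
def Neg (B A : List Bool → Bool) (n : ℕ) : Prop :=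
  ∀ w : (Fin ((n + 1) * n) → Bool) → ℂ, IsState w → (total n).accProb (join B A) w ≤ 1 / 3

/-- The string sent to the first oracle. -/
def code (e : Fin n → Bool) (ys : Fin n → Fin n → Bool) (b : Bool) (as : Fin n → Bool) :
    List Bool :=
  List.ofFn (flat (Fin.cons e ys)) ++ List.ofFn (Fin.cons b as : Fin (n + 1) → Bool)

lemma acc_code (B A : List Bool → Bool) (w : (Fin ((n + 1) * n) → Bool) → ℂ) :
    (total n).accProb (join B A) w = ∑ ys : Fin n → Fin n → Bool, ∑ e, ∑ b,
      if B (code e ys b fun j => A (List.ofFn (ys j))) = true then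
        ‖∑ z, Hn n e z * if A (List.ofFn z) = b then w (flat (Fin.cons z ys)) else 0‖ ^ 2
      else 0 := total_acc B A w

lemma flat_cons_inj (ys : Fin n → Fin n → Bool) :
    Function.Injective fun z => flat (Fin.cons z ys) := fun _ _ h =>
  (Fin.cons_injective2 (flat_bij.1 h)).1

lemma subsetState_image {k : ℕ} {φ : (Fin n → Bool) → Fin k → Bool} (h : Function.Injective φ)
    (X : Finset (Fin n → Bool)) (z : Fin n → Bool) :
    subsetState (X.image φ) (φ z) = subsetState X z := by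
  simp only [subsetState, card_image_of_injective _ h, h.mem_finset_image]

lemma pos_of (ys : Fin n → Fin n → Bool) (b : Bool) {X : Finset (Fin n → Bool)} (hX : X.Nonempty)
    (hb : ∀ z ∈ X, A (List.ofFn z) = b) (E : Finset (Fin n → Bool))
    (hE : ∀ e ∈ E, B (code e ys b fun j => A (List.ofFn (ys j))) = true)
    (h : 2 / 3 ≤ ∑ e ∈ E, ‖∑ z, Hn n e z * subsetState X z‖ ^ 2) : Pos B A n := by
  refine ⟨X.image fun z => flat (Fin.cons z ys), hX.image _, h.trans ?_⟩
  refine le_of_le_of_eq ?_ (acc_code B A _).symm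
  refine le_trans ?_ (single_le_sum (fun _ _ => sum_nonneg fun _ _ => sum_nonneg fun _ _ => by
    split_ifs <;> positivity) (mem_univ ys))
  refine le_trans ?_ (sum_le_sum_of_subset_of_nonneg (subset_univ E)
    fun _ _ _ => sum_nonneg fun _ _ => by split_ifs <;> positivity)
  refine sum_le_sum fun e he => le_trans (le_of_eq ?_) (single_le_sum (fun _ _ => by
    split_ifs <;> positivity) (mem_univ b))
  refine Eq.trans ?_ (if_pos (hE e he)).symm
  congr 2
  refine sum_congr rfl fun z _ => ?_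
  congr 1
  rw [subsetState_image (flat_cons_inj ys)]
  by_cases hz : z ∈ X
  · rw [if_pos (hb z hz)]
  · simp [subsetState, hz]

lemma neg_of (E : Finset (Fin n → Bool))
    (hE : ∀ e ys b, B (code e ys b fun j => A (List.ofFn (ys j))) = true → b = true ∧ e ∈ E)
    (h : ∀ ψ : (Fin n → Bool) → ℂ, 3 * ∑ e ∈ E,
      ‖∑ z, Hn n e z * if A (List.ofFn z) = true then ψ z else 0‖ ^ 2 ≤ ∑ z, ‖ψ z‖ ^ 2) :
    Neg B A n := by
  intro w hw
  have h1 : ∑ ys : Fin n → Fin n → Bool, ∑ z, ‖w (flat (Fin.cons z ys))‖ ^ 2 = 1 :=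
    (sum_flat fun x => ‖w x‖ ^ 2).symm.trans hw
  rw [acc_code B A w, le_div_iff₀ (by norm_num), ← h1, sum_mul]
  refine sum_le_sum fun ys _ => le_trans ?_ (h fun z => w (flat (Fin.cons z ys)))
  rw [mul_comm, ← sum_subset (subset_univ E) fun e _ he => sum_eq_zero fun b _ =>
    if_neg fun h2 => he (hE e ys b h2).2]
  refine mul_le_mul_of_nonneg_left (sum_le_sum fun e _ => ?_) (by norm_num)
  rw [Fintype.sum_bool, if_neg fun h2 => Bool.false_ne_true (hE e ys false h2).1, add_zero]
  split_ifs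
  · exact le_rfl
  · positivity

/-- The points of length `n` of the oracle. -/
def oset (A : List Bool → Bool) (n : ℕ) : Finset (Fin n → Bool) :=
  univ.filter fun z => A (List.ofFn z) = true

lemma mem_oset (z : Fin n → Bool) : z ∈ oset A n ↔ A (List.ofFn z) = true := by simp [oset]

/-- The oracle `A0` overwritten by `Y` on the strings of length `n`. -/
def ovr (A0 : List Bool → Bool) (Y : Finset (Fin n → Bool)) : List Bool → Bool :=
  fun s => if s.length = n then decide (s ∈ Y.image List.ofFn) else A0 s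

lemma oset_ovr (A0 : List Bool → Bool) (Y : Finset (Fin n → Bool)) : oset (ovr A0 Y) n = Y := by
  ext z
  simp [oset, ovr, List.ofFn_injective.eq_iff]

lemma ovr_agree (A0 : List Bool → Bool) {O Y Δ : Finset (Fin n → Bool)} (h : Y ⊆ O) (h' : Δ ⊆ Y) :
    ∀ s ∉ (O \ Δ).image (fun z => false :: List.ofFn z),
      join B (ovr A0 Y) s = join B (ovr A0 O) s := by
  rintro (_ | ⟨_ | _, s⟩) hs
  · rfl
  · simp only [join, ovr]
    split_ifs
    · refine decide_eq_decide.2 ⟨fun h1 => image_subset_image h h1, fun h1 => ?_⟩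
      obtain ⟨z, hz, rfl⟩ := mem_image.1 h1
      by_contra h2
      exact hs (mem_image_of_mem _ (mem_sdiff.2 ⟨hz, fun h3 => h2 (mem_image_of_mem _ (h' h3))⟩))
    · rfl
  · rfl

/-- The verifier `V` with classical witnesses errs on the instance of length `n`. -/
def Err (V : Verifier) (B A : List Bool → Bool) (n : ℕ) : Prop :=
  (Pos B A n ∧ ∀ y, V.accProb (join B A) (Pi.single y 1) < 2 / 3) ∨
    (Neg B A n ∧ ∃ y, 1 / 3 < V.accProb (join B A) (Pi.single y 1))

section

variable {ι S S' : Type} [Fintype ι] [DecidableEq ι] [Fintype S] [AddCommGroup S] [Fintype S']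
  [DecidableEq S] [DecidableEq S'] {π : ι → (Fin n → ZMod 2) →+ S} {t w u D : ℕ}

/-- The first oracle checks a certificate or the degree of the Hadamard vector. -/
def Enc (B : List Bool → Bool) (π : ι → (Fin n → ZMod 2) →+ S) (blk : S → S') (w : ℕ) : Prop :=
  ∀ e ys b as, B (code e ys b as) = true ↔
    Cert (sy π) blk ys as ∨ (b = true ∧ e ∈ low w (sy π))

lemma pos_of_wt {blk : S → S'} (hB : Enc B π blk w) {X : Finset (Fin n → Bool)}
    (hX : X ⊆ oset A n) (h : X.Nonempty ∧ 2 / 3 ≤ wt π w (subsetState X)) : Pos B A n :=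
  pos_of default true h.1 (fun z hz => (mem_oset z).1 (hX hz)) _
    (fun _ he => (hB _ _ _ _).2 (Or.inr ⟨rfl, he⟩)) h.2

lemma neg_of_miss {blk : S → S'} (hB : Enc B π blk w) (hp : Ind t (sy π)) (ht : 2 * (w + 1) ≤ t)
    (hV : ¬ Viol (sy π) blk (oset A n))
    (hM : 12 * ((w : ℝ) + 1) ≤ ∑ j, 𝔼 s, out (sy π) (oset A n) j s) : Neg B A n :=
  neg_of (low w (sy π))
    (fun _ _ _ h => ((hB _ _ _ _).1 h).resolve_left fun h1 => hV (viol_of_cert mem_oset h1))
    fun ψ => by simpa only [wt, mem_oset] using gap_no π hp ht hM ψ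

lemma neg_of_small {blk : S → S'} (hB : Enc B π blk w) (hp : Ind t (sy π)) (ht : 2 * (w + 1) ≤ t)
    (hm : 24 * (w + 1) ≤ Fintype.card ι) (hV : ¬ Viol (sy π) blk (oset A n))
    (hO : 2 * (oset A n).card ≤ Fintype.card S) : Neg B A n := by
  refine neg_of_miss hB hp ht hV (le_trans ?_ (miss_ge _ _ hO))
  have : (24 * (w + 1) : ℝ) ≤ Fintype.card ι := by exact_mod_cast hm
  linarith

theorem pos_or_neg {blk : S → S'} (hB : Enc B π blk w) (hp : Ind t (sy π))
    (ht : 360 * (w + 1) + 4 ≤ t) (hD : 2 ≤ D) (hm : Fintype.card ι ≤ u * D) (hw : 14 * u + 1 ≤ w)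
    (hS : Fintype.card S' * D ≤ Fintype.card S) (hm' : 24 * (w + 1) ≤ Fintype.card ι)
    (hn : 2 * Fintype.card ι ≤ n) (A : List Bool → Bool) : Pos B A n ∨ Neg B A n := by
  have : Nonempty ι := Fintype.card_pos_iff.1 (by omega)
  by_cases hV : Viol (sy π) blk (oset A n)
  · obtain ⟨ys, h⟩ := cert_of_viol (J := Fin n) (by simpa using hn) mem_oset hV
    refine Or.inl (pos_of (X := {default}) ys _ (singleton_nonempty _)
      (fun z hz => by rw [mem_singleton.1 hz]) univ (fun _ _ => (hB _ _ _ _).2 (Or.inl h)) ?_)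
    have e : ∀ e, ∑ z, Hn n e z * subsetState {default} z = Hn n e default := fun e => by
      simp [subsetState]
    simp only [e, norm_Hn_sq]
    simp
    norm_num
  rcases (oset A n).eq_empty_or_nonempty with hO | hO
  · exact Or.inr (neg_of_small hB hp (by omega) hm' hV (by simp [hO]))
  rcases le_total (∑ j, 𝔼 s, out (sy π) (oset A n) j s) (12 * ((w : ℝ) + 1)) with hM | hM
  · obtain ⟨X, h1, h2⟩ := gap_yes (μ := 12 * (w + 1)) π hp (by omega) (by omega) hD hm hw blk hS hO
      (by exact_mod_cast hM) hV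
    exact Or.inl (pos_of_wt hB h1 h2)
  · exact Or.inr (neg_of_miss hB hp (by omega) hV hM)

theorem exists_err (e : S ≃ S' × Fin D) (hB : Enc B π (fun s => (e s).1) w) (hp : Ind t (sy π))
    (ht : 2 * (w + 1) ≤ t) (hD : 2 ≤ D) (hm : Fintype.card ι ≤ u * D) (hw : 14 * u + 1 ≤ w)
    (hm' : 24 * (w + 1) ≤ Fintype.card ι) {K a c : ℕ} (ha : 2 * a + 2 ≤ Fintype.card ι)
    (hc : a + D * c ≤ Fintype.card ι)
    (hK : ∀ Y : Finset (Fin n → Bool), Y.card ≤ K →
      Fintype.card ι * Y.card ≤ gam (sy π) Y + a * Y.card)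
    (V : Verifier) (hV : V.Valid) (h1 : 2 * (V.p + 1) + 1 ≤ K)
    (h2 : 4 * (V.p + 1) ≤ Fintype.card S) (h3 : 1152 * (V.queries + 1) ^ 2 ≤ 2 ^ c)
    (A0 : List Bool → Bool) : ∃ Y : Finset (Fin n → Bool), Err V B (ovr A0 Y) n := by
  have : NeZero D := ⟨by omega⟩
  by_contra hcon
  have hc' : ∀ X : Finset (Fin n → Bool), ¬ Err V B (ovr A0 X) n := fun X h => hcon ⟨X, h⟩
  set T : ℝ := (V.queries : ℝ) + 1 with hTd
  have hT0 : 0 < T := by positivity
  have hD' : (2 : ℝ) ≤ D := by exact_mod_cast hD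
  have h0 : (0 : ℝ) ≤ 1 - 1 / D := by
    rw [sub_nonneg, div_le_one (by linarith)]
    linarith
  have hcl : ∀ Δ : Finset (Fin n → Bool), Δ.card ≤ V.p + 1 → (cl (sy π) Δ).card ≤ 2 * Δ.card :=
    fun Δ h => card_cl ha hK (by omega)
  have key := sampler_cl (fun (y : Fin V.p → Bool) Y z =>
      mass (join B (ovr A0 Y)) V.gates (init V.q (Pi.single y 1)) (false :: List.ofFn z) / T)
    (fun _ _ _ => div_nonneg (mass_nonneg _ _ _ _) hT0.le) (fun y Y => by
      have h := sum_mass_basis hV (join B (ovr A0 Y)) y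
        (univ.image fun z : Fin n → Bool => false :: List.ofFn z)
      rw [sum_image enc_inj.injOn] at h
      rw [← sum_div, div_le_one hT0]
      linarith) (cl (sy π)) (fun _ _ => cl_mono _ (subset_insert _ _)) (rs (sy π) e)
    (ρ := (1 - 1 / D) ^ (D * c)) (η := 1 / (144 * T) / T) (by positivity) (by positivity) hcl
    (fun Y hY => (prob_rs _ e Y).trans (by
      rw [← pow_mul]
      refine pow_le_pow_of_le_one h0 (by rw [sub_le_self_iff]; positivity) ?_
      have h4 := hK Y (by omega)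
      have h5 := Nat.mul_le_mul_right Y.card hc
      rw [add_mul] at h5
      omega))
    (fun ω => by
      have hy : Pos B (ovr A0 (rs (sy π) e ω)) n :=
        pos_of_wt hB (oset_ovr A0 _).ge (dense_yes π hp (by omega) hD hm hw
          (fun j s => ω (j, (e s).1) = (e s).2) (fun j => expect_le_of_inj (by omega)
            (by rw [Fintype.card_congr e]; simp) (fun s => (e s).1) _ (excl_inj e ω j)) _
          fun z => by simp [rs])
      obtain ⟨y, hy'⟩ : ∃ y, 2 / 3 ≤ V.accProb (join B (ovr A0 (rs (sy π) e ω)))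
          (Pi.single y 1) := by
        by_contra h
        push Not at h
        exact hc' _ (Or.inl ⟨hy, h⟩)
      refine ⟨y, fun Δ hΔ hcard => ?_⟩
      have hn : Neg B (ovr A0 (cl (sy π) Δ ∩ rs (sy π) e ω)) n :=
        neg_of_small hB hp ht hm' (by rw [oset_ovr]; exact not_viol _ e ω Δ) (by
          rw [oset_ovr]
          have h4 := (card_le_card (inter_subset_left (s₂ := rs (sy π) e ω))).trans (hcl Δ hcard)
          omega)
      have h4 : V.accProb (join B (ovr A0 (cl (sy π) Δ ∩ rs (sy π) e ω))) (Pi.single y 1) ≤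
          1 / 3 := by
        by_contra h
        exact hc' _ (Or.inr ⟨hn, y, not_le.1 h⟩)
      have h5 := mass_ge hV (ovr_agree A0 inter_subset_right
        (subset_inter (subset_cl _ _) hΔ)) _ h4 hy'
      rw [sum_image enc_inj.injOn] at h5
      rw [← sum_div]
      exact div_le_div_of_nonneg_right h5 hT0.le)
  set η : ℝ := 1 / (144 * T) / T with hη
  have hη0 : 0 < η := by positivity
  have h4 : 4 * (1 - 1 / D : ℝ) ^ (D * c) ≤ η / 2 := by
    have e1 : (1 - 1 / D : ℝ) ^ D ≤ 1 / 2 := by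
      refine (Real.one_sub_div_pow_le_exp_neg (by linarith)).trans ?_
      rw [Real.exp_neg, ← one_div]
      exact one_div_le_one_div_of_le (by norm_num) (by linarith [Real.add_one_le_exp 1])
    have e2 : (1152 * T ^ 2 : ℝ) ≤ 2 ^ c := by rw [hTd]; exact_mod_cast h3
    have e3 : (1 - 1 / D : ℝ) ^ (D * c) ≤ 1 / (1152 * T ^ 2) := by
      rw [pow_mul]
      refine (pow_le_pow_left₀ (by positivity) e1 c).trans ?_
      rw [one_div_pow]
      exact one_div_le_one_div_of_le (by positivity) e2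
    refine (mul_le_mul_of_nonneg_left e3 (by norm_num)).trans (le_of_eq ?_)
    rw [hη]
    field_simp
    norm_num
  have h5 := key.trans (mul_le_mul_of_nonneg_left (pow_le_pow_left₀ (by positivity) h4 _)
    (Nat.cast_nonneg _))
  simp only [Fintype.card_pi, Fintype.card_bool, prod_const, card_univ, Fintype.card_fin,
    Nat.cast_pow, Nat.cast_ofNat] at h5
  clear_value η
  rw [div_pow, pow_succ (2 : ℝ), ← mul_div_assoc, mul_div_mul_left _ _ (by positivity)] at h5
  have h6 : 0 < η ^ (V.p + 1) := by positivity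
  linarith

end

end Pool.Agent.MP_36f78e_lc.H75T
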