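import Mathlib
import Pool.Agent.MP_36f78e_lc.H75T.Core

/-!
The choice of the parameters, the first oracle, and the category argument.
-/

namespace Pool.Agent.MP_36f78e_lc.H75T

open Finset Pool.Agent.MP_36f78e_lc.H24.Cl

/-- The lengths that carry hard instances. -/
def Hard (n : ℕ) : Prop := ∃ j, 4 ≤ j ∧ n = (8 * 2 ^ j + 44) * 2 ^ (15 + 2 * j)

/-- The table `P` of the first oracle at length `n` has the gap and defeats the verifiers with
classical witnesses. -/
def Fine (n : ℕ)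
    (P : (Fin n → Bool) → (Fin n → Fin n → Bool) → Bool → (Fin n → Bool) → Prop) : Prop :=
  ∀ B : List Bool → Bool, (∀ e ys b as, B (code e ys b as) = true ↔ P e ys b as) →
    (∀ A, Pos B A n ∨ Neg B A n) ∧ (Hard n → ∀ V : Verifier, V.Valid →
      2 ^ 19 * Nat.log 2 (V.p + V.queries + 1) ^ 3 ≤ n →
      ∀ A0, ∃ Y : Finset (Fin n → Bool), Err V B (ovr A0 Y) n)

theorem fine_of_hard (j : ℕ) (hj : 4 ≤ j) :
    ∃ P, Fine ((8 * 2 ^ j + 44) * 2 ^ (15 + 2 * j)) P := by
  obtain ⟨l, hl⟩ : ∃ l, l = 2 ^ j := ⟨_, rfl⟩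
  have h16 : 16 ≤ l := hl ▸ Nat.pow_le_pow_right (n := 2) (by norm_num) hj
  have hjl : j < l := hl ▸ Nat.lt_two_pow_self
  obtain ⟨D, hD⟩ : ∃ D, D = 2 ^ (15 + 2 * j) := ⟨_, rfl⟩
  have hD' : D = 32768 * (l * l) := by rw [hD, hl]; ring
  have hll : 16 * l ≤ l * l := Nat.mul_le_mul_right _ h16
  have hDl : 16 * D ≤ l * D := Nat.mul_le_mul_right _ h16
  rw [← hl, ← hD]
  obtain ⟨S, _, _, _, π, hS, h1, h2⟩ := exists_code (8 * l + 44) D (l + 2) (20160 * l + 111604)
    (by omega) (by omega) (Fin ((4 * l + 22) * D))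
    (by
      have h := Nat.lt_two_pow_self (n := l)
      rw [Fintype.card_fin]
      calc _ ≤ (2 ^ 5 * 2 ^ l) * (2 ^ 15 * (2 ^ l * 2 ^ l)) := Nat.mul_le_mul (by omega)
            (hD' ▸ Nat.mul_le_mul_left _ (Nat.mul_le_mul h.le h.le))
        _ = 2 ^ (3 * l + 20) := by ring
        _ ≤ _ := Nat.pow_le_pow_right (by norm_num) (by omega))
    (lt_trans (by omega) Nat.lt_two_pow_self) (by rw [Fintype.card_fin, add_mul, mul_assoc]; omega)
    (by omega) (by nlinarith)
  have hr : 15 + 2 * j ≤ (8 * l + 44) * (l + 2) :=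
    le_trans (by omega) (Nat.le_mul_of_pos_right _ (by omega))
  have e : S ≃ Fin (2 ^ ((8 * l + 44) * (l + 2) - (15 + 2 * j))) × Fin D :=
    Fintype.equivOfCardEq (by
      rw [hS, Fintype.card_prod, Fintype.card_fin, Fintype.card_fin, hD, ← pow_add,
        Nat.sub_add_cancel hr])
  have hm : Fintype.card (Fin ((4 * l + 22) * D)) = 4 * (l * D) + 22 * D := by
    rw [Fintype.card_fin]; ring
  have hp := ind_sy π h1
  refine ⟨fun x ys b as => Cert (sy π) (fun s => (e s).1) ys as ∨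
    (b = true ∧ x ∈ low (56 * l + 309) (sy π)), fun B hB => ⟨pos_or_neg (u := 4 * l + 22) (D := D)
      hB hp (by omega) (by omega) (by simp) (by omega) (by rw [Fintype.card_congr e]; simp)
      (by omega) (by rw [hm, add_mul, mul_assoc]; omega), fun _ V hV hc => ?_⟩⟩
  have hc1 : Nat.log 2 (V.p + V.queries + 1) < l := by
    refine lt_of_pow_lt_pow_left₀ 3 (Nat.zero_le _) (lt_of_mul_lt_mul_left (hc.trans_lt ?_)
      (Nat.zero_le _))
    calc _ < 16 * l * D := Nat.mul_lt_mul_of_pos_right (by omega) (by omega)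
      _ = _ := by rw [hD']; ring
  have hc2 : V.p + V.queries + 1 < 2 ^ l := Nat.lt_pow_of_log_lt (by norm_num) hc1
  have ha : (D - 1) * (l + 2) + (l + 2) = l * D + 2 * D := by
    rw [← Nat.succ_mul, Nat.succ_eq_add_one, Nat.sub_add_cancel (by omega)]; ring
  refine exists_err (u := 4 * l + 22) (K := 2 ^ (l + 2)) (a := (D - 1) * (l + 2))
    (c := 2 * l + 11) e hB hp (by omega) (by omega) (by simp) (by omega) (by omega) (by omega)
    (by rw [hm, mul_add D, mul_comm D, mul_assoc]; omega) (fun Y hY => ?_) V hV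
    (by rw [pow_add]; omega) ?_ ?_
  · have h3 := h2 (Y.image toZ) (card_image_le.trans hY)
    simp only [card_image_of_injective _ toZ_bij.1, image_image] at h3
    exact h3
  · rw [hS]
    calc _ ≤ 2 ^ (l + 2) := by rw [pow_add]; omega
      _ ≤ _ := Nat.pow_le_pow_right (by norm_num) (Nat.le_mul_of_pos_left _ (by omega))
  · calc _ ≤ 2 ^ 11 * (2 ^ l) ^ 2 :=
          Nat.mul_le_mul (by norm_num) (Nat.pow_le_pow_left (by omega) _)
      _ = _ := by ring

theorem exists_fine (n : ℕ) : ∃ P, Fine n P := by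
  by_cases h : Hard n
  · obtain ⟨j, hj, rfl⟩ := h
    exact fine_of_hard j hj
  · refine ⟨fun _ _ _ _ => False, fun B hB => ⟨fun A => Or.inr (neg_of ∅
      (fun _ _ _ h1 => ((hB _ _ _ _).1 h1).elim) fun ψ => ?_), fun h1 => absurd h1 h⟩⟩
    rw [sum_empty, mul_zero]
    positivity

lemma code_length {n : ℕ} (e : Fin n → Bool) (ys : Fin n → Fin n → Bool) (b : Bool)
    (as : Fin n → Bool) : (code e ys b as).length = (n + 1) * (n + 1) := by
  rw [code, List.length_append, List.length_ofFn, List.length_ofFn]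
  ring

lemma code_inj {n : ℕ} {e e' : Fin n → Bool} {ys ys' : Fin n → Fin n → Bool} {b b' : Bool}
    {as as' : Fin n → Bool} (h : code e ys b as = code e' ys' b' as') :
    (e = e' ∧ ys = ys') ∧ b = b' ∧ as = as' := by
  obtain ⟨h1, h2⟩ := List.append_inj h (by simp)
  exact ⟨Fin.cons_injective2 (flat_bij.1 (List.ofFn_injective h1)),
    Fin.cons_injective2 (List.ofFn_injective h2)⟩

theorem exists_oracle : ∃ B : List Bool → Bool, ∀ n, (∀ A, Pos B A n ∨ Neg B A n) ∧
    (Hard n → ∀ V : Verifier, V.Valid → 2 ^ 19 * Nat.log 2 (V.p + V.queries + 1) ^ 3 ≤ n →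
      ∀ A0, ∃ Y : Finset (Fin n → Bool), Err V B (ovr A0 Y) n) := by
  classical
  choose P hP using exists_fine
  refine ⟨fun s => decide (∃ n e ys b as, s = code e ys b as ∧ P n e ys b as),
    fun n => hP n _ fun e ys b as => ?_⟩
  rw [decide_eq_true_iff]
  refine ⟨?_, fun h => ⟨n, e, ys, b, as, rfl, h⟩⟩
  rintro ⟨n', e', ys', b', as', h1, h2⟩
  have h3 := congrArg List.length h1
  rw [code_length, code_length] at h3
  obtain rfl : n = n' := Nat.succ_injective (Nat.mul_self_inj.1 h3)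
  obtain ⟨⟨rfl, rfl⟩, rfl, rfl⟩ := code_inj h1
  exact h2

lemma not_pos_of_neg {B A : List Bool → Bool} {n : ℕ} (h : Neg B A n) : ¬ Pos B A n := by
  rintro ⟨S, h1, h2⟩
  linarith [h _ (isState_subset h1)]

lemma Err.not_decides {V : Verifier} {B A : List Bool → Bool} {n : ℕ} (h : Err V B A n) :
    ¬ Decides V (join B A) (Pos B A n) := by
  rintro ⟨h1, h2⟩
  rcases h with ⟨h3, h4⟩ | ⟨h3, y, h4⟩
  · obtain ⟨y, hy⟩ := h1 h3
    exact absurd hy (not_le.2 (h4 y))
  · exact absurd (h2 (not_pos_of_neg h3) y) (not_le.2 h4)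

lemma exists_hard (N : ℕ) : ∃ x : List Bool, N ≤ x.length ∧ Hard x.length := by
  refine ⟨List.replicate ((8 * 2 ^ (N + 4) + 44) * 2 ^ (15 + 2 * (N + 4))) false, ?_, N + 4,
    by omega, List.length_replicate⟩
  rw [List.length_replicate]
  have := Nat.lt_two_pow_self (n := N + 4)
  exact le_trans (by omega) (Nat.le_mul_of_pos_right _ (by positivity))

lemma accProb_congr (V : Verifier) (B : List Bool → Bool) : ∃ b : ℕ, ∀ A A' : List Bool → Bool,
    (∀ s, s.length < b → A s = A' s) → V.accProb (join B A) = V.accProb (join B A') := by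
  obtain ⟨b, hb⟩ := run_congr V.gates
  refine ⟨b, fun A A' h => funext fun w => ?_⟩
  rw [accProb_eq, accProb_eq, hb (join B A) (join B A')]
  rintro (_ | ⟨_ | _, s⟩) hs
  · rfl
  · exact h s (lt_trans (by simp) hs)
  · rfl

/-- A property that can be destroyed beyond every length, at a place where only finitely many
values of the oracle matter, is nowhere dense. -/
lemma nowhereDense (W : Set (List Bool → Bool))
    (h : ∀ (N : ℕ) (A0 : List Bool → Bool), ∃ (A : List Bool → Bool) (b : ℕ),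
      (∀ s, s.length < N → A s = A0 s) ∧
      ∀ A' : List Bool → Bool, (∀ s, s.length < b → A' s = A s) → A' ∉ W) :
    IsNowhereDense W := by
  rw [IsNowhereDense, interior_eq_empty_iff_dense_compl, ← interior_compl]
  intro A0
  rw [mem_closure_iff_nhds]
  intro U hU
  rw [nhds_pi, Filter.mem_pi] at hU
  obtain ⟨I, hI, t, ht, hU⟩ := hU
  obtain ⟨N, hN⟩ := (hI.image List.length).bddAbove
  obtain ⟨A, b, h1, h2⟩ := h (N + 1) A0
  refine ⟨A, hU fun s hs => ?_, mem_interior.2 ⟨{s : List Bool | s.length < b}.pi fun s => {A s},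
    fun A' hA' => h2 A' hA', isOpen_set_pi (List.finite_length_lt Bool b)
      fun _ _ => isOpen_discrete _, fun _ _ => rfl⟩⟩
  rw [h1 s (Nat.lt_succ_of_le (hN ⟨s, hs, rfl⟩))]
  exact mem_of_mem_nhds (ht s)

theorem meagre {B : List Bool → Bool}
    (hB : ∀ n, Hard n → ∀ V : Verifier, V.Valid →
      2 ^ 19 * Nat.log 2 (V.p + V.queries + 1) ^ 3 ≤ n →
      ∀ A0, ∃ Y : Finset (Fin n → Bool), Err V B (ovr A0 Y) n)
    (V : List Bool → Verifier) (hV : ∀ x, (V x).Valid)
    (hc : ∃ N, ∀ x : List Bool, N ≤ x.length →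
      2 ^ 19 * Nat.log 2 ((V x).p + (V x).queries + 1) ^ 3 ≤ x.length) (M : ℕ) :
    IsNowhereDense
      {A | ∀ x : List Bool, M ≤ x.length → Decides (V x) (join B A) (Pos B A x.length)} := by
  obtain ⟨N0, hN0⟩ := hc
  refine nowhereDense _ fun N A0 => ?_
  obtain ⟨x, h1, h2⟩ := exists_hard (N + N0 + M)
  obtain ⟨Y, h4⟩ := hB _ h2 (V x) (hV x) (hN0 x (by omega)) A0
  obtain ⟨b, hb⟩ := accProb_congr (V x) B
  obtain ⟨b', hb'⟩ := accProb_congr (total x.length) B
  refine ⟨ovr A0 Y, max b b', fun s hs => if_neg (by omega), fun A' h5 h6 => h4.not_decides ?_⟩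
  have h7 := h6 x (by omega)
  unfold Decides Pos at h7 ⊢
  rwa [hb A' _ fun s hs => h5 s (lt_max_of_lt_left hs),
    hb' A' _ fun s hs => h5 s (lt_max_of_lt_right hs)] at h7

end Pool.Agent.MP_36f78e_lc.H75T
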